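import Pool.Agent.H.MP_520f61_co.Hub

set_option autoImplicit false

namespace Pool.Agent.H.MP_520f61_co

open SimpleGraph

/-- the other element of the pair `{2i, 2i+1}` -/
def pt (m : ℕ) : ℕ := if m % 2 = 0 then m + 1 else m - 1

theorem pt_ne (m : ℕ) : pt m ≠ m := by unfold pt; split <;> omega

theorem pt_div (m : ℕ) : pt m / 2 = m / 2 := by unfold pt; split <;> omega

theorem pt_lt {m K : ℕ} (hK : Even K) (hm : m < K) : pt m < K := by
  obtain ⟨r, hr⟩ := hK
  unfold pt; split <;> omega

theorem eq_pt {m m' : ℕ} (h : m' / 2 = m / 2) (hne : m' ≠ m) : m' = pt m := by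
  unfold pt; split <;> omega

section BlobA

/-- complete graph on `d + 1` vertices minus the perfect matching `{2i,2i+1}` on the first `K`
vertices -/
def aGraph (d K : ℕ) : SimpleGraph (Fin (d + 1)) where
  Adj x y := x ≠ y ∧ ¬ (x.1 < K ∧ y.1 < K ∧ x.1 / 2 = y.1 / 2)
  symm := ⟨fun x y h => ⟨h.1.symm, fun h' => h.2 ⟨h'.2.1, h'.1, h'.2.2.symm⟩⟩⟩
  loopless := ⟨fun x h => h.1 rfl⟩

theorem aGraph_degree_lt {d K : ℕ} (hK : Even K) (hKd : K ≤ d + 1) (x : Fin (d + 1))
    (hx : x.1 < K) : ((aGraph d K).neighborSet x).ncard + 1 = d := by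
  have hp : pt x.1 < d + 1 := lt_of_lt_of_le (pt_lt hK hx) hKd
  have h1 : (aGraph d K).neighborSet x =
      ((Finset.univ \ {x, ⟨pt x.1, hp⟩} : Finset (Fin (d + 1))) : Set (Fin (d + 1))) := by
    ext y
    simp only [mem_neighborSet, Finset.coe_sdiff, Finset.coe_univ, Finset.coe_insert,
      Finset.coe_singleton, Set.mem_sdiff, Set.mem_univ, true_and, Set.mem_insert_iff,
      Set.mem_singleton_iff, not_or]
    constructor
    · rintro ⟨h1, h2⟩
      refine ⟨h1.symm, ?_⟩
      rintro rfl
      exact h2 ⟨hx, pt_lt hK hx, (pt_div _).symm⟩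
    · rintro ⟨h1, h2⟩
      refine ⟨Ne.symm h1, ?_⟩
      rintro ⟨_, h3, h4⟩
      exact h2 (Fin.ext (eq_pt h4.symm (fun h => h1 (Fin.ext h))))
  rw [h1, Set.ncard_coe_finset, Finset.card_sdiff_of_subset (Finset.subset_univ _),
    Finset.card_univ, Fintype.card_fin, Finset.card_pair]
  · have := pt_ne x.1
    have := pt_lt hK hx
    omega
  · intro h
    exact pt_ne x.1 (congrArg Fin.val h).symm

theorem aGraph_degree_ge {d K : ℕ} (x : Fin (d + 1))
    (hx : K ≤ x.1) : ((aGraph d K).neighborSet x).ncard = d := by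
  have h1 : (aGraph d K).neighborSet x =
      ((Finset.univ \ {x} : Finset (Fin (d + 1))) : Set (Fin (d + 1))) := by
    ext y
    simp only [mem_neighborSet, Finset.coe_sdiff, Finset.coe_univ,
      Finset.coe_singleton, Set.mem_sdiff, Set.mem_univ, true_and,
      Set.mem_singleton_iff]
    constructor
    · rintro ⟨h1, _⟩
      exact h1.symm
    · intro h1
      exact ⟨Ne.symm h1, fun h => by omega⟩
  rw [h1, Set.ncard_coe_finset, Finset.card_sdiff_of_subset (Finset.subset_univ _),
    Finset.card_univ, Fintype.card_fin, Finset.card_singleton]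
  omega

theorem aGraph_av {d K : ℕ} (F : Finset (Fin (d + 1))) (hF : F.card + 3 ≤ d + 1)
    (x y : Fin (d + 1)) (hx : x ∉ F) (hy : y ∉ F) : Av (aGraph d K) (F : Set (Fin (d + 1))) x y := by
  by_cases hxy : x = y
  · rw [hxy]; exact Av.refl _ _ _
  by_cases hadj : (aGraph d K).Adj x y
  · exact Av.single hadj hx hy
  · have hxy' : x.1 < K ∧ y.1 < K ∧ x.1 / 2 = y.1 / 2 := by
      by_contra hcon
      exact hadj ⟨hxy, hcon⟩
    obtain ⟨z, hz⟩ : ∃ z, z ∉ insert x (insert y F) := by
      by_contra hcon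
      push Not at hcon
      have h1 : (insert x (insert y F)) = Finset.univ := Finset.eq_univ_of_forall hcon
      have h2 := congrArg Finset.card h1
      rw [Finset.card_univ, Fintype.card_fin] at h2
      have h3 := Finset.card_insert_le x (insert y F)
      have h4 := Finset.card_insert_le y F
      omega
    rw [Finset.mem_insert, Finset.mem_insert, not_or, not_or] at hz
    obtain ⟨hzx, hzy, hzF⟩ := hz
    have hv1 : z.1 ≠ x.1 := fun h => hzx (Fin.ext h)
    have hv2 : z.1 ≠ y.1 := fun h => hzy (Fin.ext h)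
    have hv3 : x.1 ≠ y.1 := fun h => hxy (Fin.ext h)
    have e1 : (aGraph d K).Adj x z := ⟨Ne.symm hzx, fun h => by omega⟩
    have e2 : (aGraph d K).Adj z y := ⟨hzy, fun h => by omega⟩
    exact (Av.single e1 hx hzF).trans (Av.single e2 hzF hy)

end BlobA

/-- disjoint copies -/
def copies (J : Type) {β : Type} (B : SimpleGraph β) : SimpleGraph (J × β) where
  Adj x y := x.1 = y.1 ∧ B.Adj x.2 y.2
  symm := ⟨fun _ _ h => ⟨h.1.symm, h.2.symm⟩⟩
  loopless := ⟨fun _ h => h.2.ne rfl⟩

theorem copies_degree {J β : Type} (B : SimpleGraph β) (x : J × β) :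
    ((copies J B).neighborSet x).ncard = (B.neighborSet x.2).ncard := by
  have : (copies J B).neighborSet x = (fun b => (x.1, b)) '' (B.neighborSet x.2) := by
    ext y
    constructor
    · rintro ⟨h1, h2⟩
      exact ⟨y.2, h2, Prod.ext h1 rfl⟩
    · rintro ⟨b, hb, rfl⟩
      exact ⟨rfl, hb⟩
  rw [this, Set.ncard_image_of_injective]
  intro a b hab
  exact (Prod.mk.inj hab).2

/-- copies paired up by an edge between the two extra vertices -/
def paired (J : Type) {β : Type} (B : SimpleGraph β) (e : β) : SimpleGraph ((J × Bool) × β) where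
  Adj x y := x.1.1 = y.1.1 ∧ ((x.1.2 = y.1.2 ∧ B.Adj x.2 y.2) ∨ (x.1.2 ≠ y.1.2 ∧ x.2 = e ∧ y.2 = e))
  symm := ⟨by
    rintro x y ⟨h1, h2 | h2⟩
    · exact ⟨h1.symm, Or.inl ⟨h2.1.symm, h2.2.symm⟩⟩
    · exact ⟨h1.symm, Or.inr ⟨h2.1.symm, h2.2.2, h2.2.1⟩⟩⟩
  loopless := ⟨by
    rintro x ⟨_, h2 | h2⟩
    · exact h2.2.ne rfl
    · exact h2.1 rfl⟩

theorem paired_degree_ne {J β : Type} (B : SimpleGraph β) (e : β) (x : (J × Bool) × β)
    (hx : x.2 ≠ e) : ((paired J B e).neighborSet x).ncard = (B.neighborSet x.2).ncard := by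
  have : (paired J B e).neighborSet x = (fun b => (x.1, b)) '' (B.neighborSet x.2) := by
    ext y
    constructor
    · rintro ⟨h1, h2 | h2⟩
      · exact ⟨y.2, h2.2, Prod.ext (Prod.ext h1 h2.1) rfl⟩
      · exact absurd h2.2.1 hx
    · rintro ⟨b, hb, rfl⟩
      exact ⟨rfl, Or.inl ⟨rfl, hb⟩⟩
  rw [this, Set.ncard_image_of_injective]
  intro a b hab
  exact (Prod.mk.inj hab).2

theorem paired_degree_eq {J β : Type} [Finite β] (B : SimpleGraph β) (e : β) (x : (J × Bool) × β)
    (hx : x.2 = e) : ((paired J B e).neighborSet x).ncard = (B.neighborSet x.2).ncard + 1 := by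
  have : (paired J B e).neighborSet x = (fun b => (x.1, b)) '' (B.neighborSet x.2) ∪
      {((x.1.1, !x.1.2), e)} := by
    ext y
    constructor
    · rintro ⟨h1, h2 | h2⟩
      · exact Or.inl ⟨y.2, h2.2, Prod.ext (Prod.ext h1 h2.1) rfl⟩
      · right
        refine Prod.ext (Prod.ext h1.symm ?_) h2.2.2
        have := h2.1
        revert this
        cases x.1.2 <;> cases y.1.2 <;> simp
    · rintro (⟨b, hb, rfl⟩ | h)
      · exact ⟨rfl, Or.inl ⟨rfl, hb⟩⟩
      · rw [Set.mem_singleton_iff] at h
        rw [h]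
        refine ⟨rfl, Or.inr ⟨?_, hx, rfl⟩⟩
        simp
  rw [this, Set.ncard_union_eq ?_ ((Set.toFinite _).image _) (Set.toFinite _),
    Set.ncard_image_of_injective, Set.ncard_singleton]
  · intro a b hab
    exact (Prod.mk.inj hab).2
  · rw [Set.disjoint_singleton_right]
    rintro ⟨b, _, h⟩
    have := (Prod.mk.inj (Prod.mk.inj h).1).2
    simp at this

/-- degree of the cycle graph -/
theorem cycleGraph_ncard_one (i : Fin 1) : ((cycleGraph 1).neighborSet i).ncard = 0 := by
  rw [Set.ncard_eq_zero (Set.toFinite _)]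
  ext x
  simp [cycleGraph_one_adj]

theorem cycleGraph_ncard_two (i : Fin 2) : ((cycleGraph 2).neighborSet i).ncard = 1 := by
  rw [cycleGraph_two_eq_top]
  have : (⊤ : SimpleGraph (Fin 2)).neighborSet i = {i + 1} := by
    ext x
    simp only [mem_neighborSet, top_adj, Set.mem_singleton_iff]
    revert i x
    decide
  rw [this, Set.ncard_singleton]

theorem cycleGraph_ncard_three {n : ℕ} (i : Fin (n + 3)) :
    ((cycleGraph (n + 3)).neighborSet i).ncard = 2 := by
  have h := cycleGraph_degree_three_le (n := n) (v := i)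
  rw [← card_neighborSet_eq_degree] at h
  rw [Set.ncard_eq_toFinset_card', Set.toFinset_card]
  exact h

/-- even `k` -/
theorem NCS.even {d k s m : ℕ} (hk : 1 ≤ k) (hke : Even k) (hkd : k ≤ d) (hd3 : 2 ≤ d)
    (hs : ∀ i : Fin k, ((cycleGraph k).neighborSet i).ncard = s) (hm : 2 ≤ m) (hsm : s + m = d) :
    NCS d k (k + 1) := by
  classical
  have hkd1 : k ≤ d + 1 := by omega
  refine (NCS.of_hub (J := Fin m) (β := Fin (d + 1)) (copies (Fin m) (aGraph d k))
    (Fin.castLE hkd1) (aGraph d k) (Fin.castLE_injective _) hk (by simpa using hm) hkd s hs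
    (by simpa using hsm) ?_ ?_ ?_ ?_ ?_ (fun j => decide (j.1 = 0)) ?_ ⟨0, by omega⟩ ⟨1, by omega⟩
    (by simp)).2.2.2
  · intro j b b' h
    exact ⟨rfl, h⟩
  · intro F hF b hb
    by_cases hbk : b.1 < k
    · exact ⟨⟨b.1, hbk⟩, hb, Av.refl _ _ _⟩
    · -- `b` is adjacent to everything
      obtain ⟨i, hi⟩ : ∃ i : Fin k, Fin.castLE hkd1 i ∉ F := by
        by_contra hcon
        push Not at hcon
        have h1 : (Finset.univ.image (Fin.castLE hkd1 : Fin k → Fin (d + 1))) ⊆ F := by
          intro x hx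
          obtain ⟨i, _, rfl⟩ := Finset.mem_image.1 hx
          exact hcon i
        have h2 := Finset.card_le_card h1
        rw [Finset.card_image_of_injective _ (Fin.castLE_injective _), Finset.card_univ,
          Fintype.card_fin] at h2
        omega
      refine ⟨i, hi, Av.single ⟨?_, ?_⟩ hb hi⟩
      · rintro rfl
        exact hbk i.2
      · rintro ⟨h, _⟩
        exact hbk h
  · intro F hF b b' hb hb'
    exact aGraph_av F (by omega) b b' hb hb'
  · rintro x ⟨i, hi⟩
    rw [copies_degree]
    refine aGraph_degree_lt hke hkd1 x.2 ?_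
    rw [← hi]; exact i.2
  · intro x hx
    rw [copies_degree]
    refine aGraph_degree_ge x.2 ?_
    by_contra hcon
    exact hx ⟨⟨x.2.1, by omega⟩, rfl⟩
  · rintro x y ⟨h, _⟩
    rw [h]

/-- odd `k`, even `d` -/
theorem NCS.odd_even {d k s m : ℕ} (hko : Odd k) (hde : Even d) (hkd : k ≤ d)
    (hs : ∀ i : Fin k, ((cycleGraph k).neighborSet i).ncard = s) (hm : 2 ≤ m)
    (hsm : s + 2 * m = d) :
    NCS d k (k + 1) := by
  classical
  have hk : 1 ≤ k := hko.pos
  have hkd' : k + 1 ≤ d := by
    rcases Nat.lt_or_ge k d with h | h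
    · exact h
    · exfalso
      have : k = d := le_antisymm hkd h
      rw [this] at hko
      exact (Nat.not_odd_iff_even.2 hde) hko
  have hke : Even (k + 1) := hko.add_one
  have hkd1 : k ≤ d + 1 := by omega
  have hkd2 : k + 1 ≤ d + 1 := by omega
  let e : Fin (d + 1) := ⟨k, by omega⟩
  refine (NCS.of_hub (J := Fin m × Bool) (β := Fin (d + 1)) (paired (Fin m) (aGraph d (k + 1)) e)
    (Fin.castLE hkd1) (aGraph d (k + 1)) (Fin.castLE_injective _) hk ?_ hkd s hs
    ?_ ?_ ?_ ?_ ?_ ?_ (fun j => decide (j.1.1 = 0)) ?_ (⟨0, by omega⟩, false)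
    (⟨1, by omega⟩, false) (by simp)).2.2.2
  · simp only [Nat.card_eq_fintype_card, Fintype.card_prod, Fintype.card_fin, Fintype.card_bool]
    omega
  · simp only [Nat.card_eq_fintype_card, Fintype.card_prod, Fintype.card_fin, Fintype.card_bool]
    omega
  · intro j b b' h
    exact ⟨rfl, Or.inl ⟨rfl, h⟩⟩
  · intro F hF b hb
    obtain ⟨i, hi⟩ : ∃ i : Fin k, Fin.castLE hkd1 i ∉ F := by
      by_contra hcon
      push Not at hcon
      have h1 : (Finset.univ.image (Fin.castLE hkd1 : Fin k → Fin (d + 1))) ⊆ F := by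
        intro x hx
        obtain ⟨i, _, rfl⟩ := Finset.mem_image.1 hx
        exact hcon i
      have h2 := Finset.card_le_card h1
      rw [Finset.card_image_of_injective _ (Fin.castLE_injective _), Finset.card_univ,
        Fintype.card_fin] at h2
      omega
    exact ⟨i, hi, aGraph_av F (by omega) b _ hb hi⟩
  · intro F hF b b' hb hb'
    exact aGraph_av F (by omega) b b' hb hb'
  · rintro x ⟨i, hi⟩
    have hx : x.2.1 < k := by rw [← hi]; exact i.2
    rw [paired_degree_ne]
    · exact aGraph_degree_lt hke hkd2 x.2 (by omega)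
    · intro h
      rw [h] at hx
      exact lt_irrefl _ hx
  · intro x hx
    have hxk : k ≤ x.2.1 := by
      by_contra hcon
      exact hx ⟨⟨x.2.1, by omega⟩, rfl⟩
    by_cases hxe : x.2 = e
    · rw [paired_degree_eq _ _ _ hxe]
      refine aGraph_degree_lt hke hkd2 x.2 ?_
      rw [hxe]; exact Nat.lt_succ_self k
    · rw [paired_degree_ne _ _ _ hxe]
      refine aGraph_degree_ge x.2 ?_
      have : x.2.1 ≠ k := fun h => hxe (Fin.ext h)
      omega
  · rintro x y ⟨h, _⟩
    rw [h]

section BlobB

/-- complete bipartite graph `K_{d,d-1}` with a perfect matching on the vertices `≥ k` of the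
larger side -/
def bGraph (d k : ℕ) : SimpleGraph (Fin d ⊕ Fin (d - 1)) where
  Adj
    | Sum.inl x, Sum.inl y => x ≠ y ∧ k ≤ x.1 ∧ k ≤ y.1 ∧ (x.1 - k) / 2 = (y.1 - k) / 2
    | Sum.inl _, Sum.inr _ => True
    | Sum.inr _, Sum.inl _ => True
    | Sum.inr _, Sum.inr _ => False
  symm := ⟨by
    rintro (x | x) (y | y) h
    · exact ⟨h.1.symm, h.2.2.1, h.2.1, h.2.2.2.symm⟩
    · trivial
    · trivial
    · exact h⟩
  loopless := ⟨by
    rintro (x | x) h
    · exact h.1 rfl
    · exact h⟩

theorem bGraph_degree_lt {d k : ℕ} (x : Fin d) (hx : x.1 < k) :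
    ((bGraph d k).neighborSet (Sum.inl x)).ncard = d - 1 := by
  have : (bGraph d k).neighborSet (Sum.inl x) = Sum.inr '' Set.univ := by
    ext (y | y)
    · constructor
      · rintro ⟨_, h, _⟩
        omega
      · rintro ⟨z, _, hz⟩
        exact absurd hz Sum.inr_ne_inl
    · constructor
      · intro _
        exact ⟨y, trivial, rfl⟩
      · intro _
        trivial
  rw [this, Set.ncard_image_of_injective _ Sum.inr_injective, Set.ncard_univ, Nat.card_eq_fintype_card,
    Fintype.card_fin]

theorem bGraph_degree_ge {d k : ℕ} (hdk : Even (d - k)) (x : Fin d) (hx : k ≤ x.1) :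
    ((bGraph d k).neighborSet (Sum.inl x)).ncard = d - 1 + 1 := by
  have hp : pt (x.1 - k) < d - k := pt_lt hdk (by have := x.2; omega)
  have hp' : k + pt (x.1 - k) < d := by omega
  have : (bGraph d k).neighborSet (Sum.inl x) =
      Sum.inr '' Set.univ ∪ {Sum.inl ⟨k + pt (x.1 - k), hp'⟩} := by
    ext (y | y)
    · constructor
      · rintro ⟨h1, _, h2, h3⟩
        right
        rw [Set.mem_singleton_iff]
        congr 1
        apply Fin.ext
        have h4 : y.1 - k ≠ x.1 - k := by
          intro h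
          exact h1 (Fin.ext (by omega))
        have := eq_pt h3.symm h4
        show y.1 = k + pt (x.1 - k)
        omega
      · rintro (⟨z, _, hz⟩ | h)
        · exact absurd hz Sum.inr_ne_inl
        · rw [Set.mem_singleton_iff] at h
          have hy := Sum.inl_injective h
          rw [hy]
          refine ⟨?_, hx, Nat.le_add_right _ _, ?_⟩
          · intro h'
            have h1 := congrArg Fin.val h'
            have h2 := pt_ne (x.1 - k)
            simp only at h1
            omega
          · rw [Nat.add_sub_cancel_left, pt_div]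
    · constructor
      · intro _
        exact Or.inl ⟨y, trivial, rfl⟩
      · intro _
        trivial
  rw [this, Set.ncard_union_eq ?_ (Set.toFinite _) (Set.toFinite _),
    Set.ncard_image_of_injective _ Sum.inr_injective, Set.ncard_univ, Nat.card_eq_fintype_card,
    Fintype.card_fin, Set.ncard_singleton]
  rw [Set.disjoint_singleton_right]
  rintro ⟨z, _, hz⟩
  exact absurd hz Sum.inr_ne_inl

theorem bGraph_degree_inr {d k : ℕ} (x : Fin (d - 1)) :
    ((bGraph d k).neighborSet (Sum.inr x)).ncard = d := by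
  have : (bGraph d k).neighborSet (Sum.inr x) = Sum.inl '' Set.univ := by
    ext (y | y)
    · constructor
      · intro _
        exact ⟨y, trivial, rfl⟩
      · intro _
        trivial
    · constructor
      · intro h
        exact absurd h (fun h => h)
      · rintro ⟨z, _, hz⟩
        exact absurd hz Sum.inl_ne_inr
  rw [this, Set.ncard_image_of_injective _ Sum.inl_injective, Set.ncard_univ, Nat.card_eq_fintype_card,
    Fintype.card_fin]

/-- odd `k`, odd `d` -/
theorem NCS.odd_odd {d k s m : ℕ} (hko : Odd k) (hdo : Odd d) (hkd : k ≤ d) (hd2 : 2 ≤ d)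
    (hs : ∀ i : Fin k, ((cycleGraph k).neighborSet i).ncard = s) (hm : 2 ≤ m) (hsm : s + m = d) :
    (∀ v, ((hGraph (copies (Fin m) (bGraph d k)) (fun i : Fin k =>
      (Sum.inl (Fin.castLE hkd i) : Fin d ⊕ Fin (d - 1)))).neighborSet v).ncard = d) ∧
    KConnected k (hGraph (copies (Fin m) (bGraph d k)) (fun i : Fin k =>
      (Sum.inl (Fin.castLE hkd i) : Fin d ⊕ Fin (d - 1)))) ∧
    (∀ (j j' : Fin m), j ≠ j' → ∀ b b', ¬ Av (hGraph (copies (Fin m) (bGraph d k))
      (fun i : Fin k => (Sum.inl (Fin.castLE hkd i) : Fin d ⊕ Fin (d - 1))))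
      (Set.range Sum.inl) (Sum.inr (j, b)) (Sum.inr (j', b'))) ∧
    NCS d k (k + 1) := by
  classical
  have hk : 1 ≤ k := hko.pos
  have hport : Function.Injective (fun i : Fin k =>
      (Sum.inl (Fin.castLE hkd i) : Fin d ⊕ Fin (d - 1))) := by
    intro a b hab
    exact Fin.castLE_injective _ (Sum.inl_injective hab)
  have hdk : Even (d - k) := Nat.Odd.sub_odd hdo hko
  have main : ∀ (j j' : Fin m), j ≠ j' → (∀ v, ((hGraph (copies (Fin m) (bGraph d k)) (fun i : Fin k =>
      (Sum.inl (Fin.castLE hkd i) : Fin d ⊕ Fin (d - 1)))).neighborSet v).ncard = d) ∧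
    KConnected k (hGraph (copies (Fin m) (bGraph d k)) (fun i : Fin k =>
      (Sum.inl (Fin.castLE hkd i) : Fin d ⊕ Fin (d - 1)))) ∧
    (∀ b b', ¬ Av (hGraph (copies (Fin m) (bGraph d k))
      (fun i : Fin k => (Sum.inl (Fin.castLE hkd i) : Fin d ⊕ Fin (d - 1))))
      (Set.range Sum.inl) (Sum.inr (j, b)) (Sum.inr (j', b'))) ∧
    NCS d k (k + 1) := by
    intro j0 j1 hj01
    refine NCS.of_hub (J := Fin m) (β := Fin d ⊕ Fin (d - 1)) (copies (Fin m) (bGraph d k))
      _ (bGraph d k) hport hk (by simpa using hm) hkd s hs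
      (by simpa using hsm) ?_ ?_ ?_ ?_ ?_ (fun j => decide (j = j0)) ?_ j0 j1
      (by simp [hj01.symm])
    · intro j b b' h
      exact ⟨rfl, h⟩
    · intro F hF b hb
      obtain ⟨i, hi⟩ : ∃ i : Fin k, (Sum.inl (Fin.castLE hkd i) : Fin d ⊕ Fin (d - 1)) ∉ F := by
        by_contra hcon
        push Not at hcon
        have h1 : (Finset.univ.image (fun i : Fin k =>
            (Sum.inl (Fin.castLE hkd i) : Fin d ⊕ Fin (d - 1)))) ⊆ F := by
          intro x hx
          obtain ⟨i, _, rfl⟩ := Finset.mem_image.1 hx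
          exact hcon i
        have h2 := Finset.card_le_card h1
        rw [Finset.card_image_of_injective _ hport, Finset.card_univ,
          Fintype.card_fin] at h2
        omega
      rcases b with x | y
      · by_cases hxk : x.1 < k
        · exact ⟨⟨x.1, hxk⟩, hb, Av.refl _ _ _⟩
        · -- some `inr y` is free
          obtain ⟨y, hy⟩ : ∃ y : Fin (d - 1), (Sum.inr y : Fin d ⊕ Fin (d - 1)) ∉ F := by
            by_contra hcon
            push Not at hcon
            have h1 : (Finset.univ.image (fun y : Fin (d - 1) =>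
                (Sum.inr y : Fin d ⊕ Fin (d - 1)))) ⊆ F := by
              intro x hx
              obtain ⟨i, _, rfl⟩ := Finset.mem_image.1 hx
              exact hcon i
            have h2 := Finset.card_le_card h1
            rw [Finset.card_image_of_injective _ Sum.inr_injective, Finset.card_univ,
              Fintype.card_fin] at h2
            have := x.2
            obtain ⟨r, hr⟩ := hdk
            omega
          refine ⟨i, hi, Av.trans (b := Sum.inr y) (Av.single (G := bGraph d k) trivial hb hy)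
            (Av.single (G := bGraph d k) trivial hy hi)⟩
      · exact ⟨i, hi, Av.single (G := bGraph d k) trivial hb hi⟩
    · intro F hF
      obtain ⟨y, hy⟩ : ∃ y : Fin (d - 1), (Sum.inr y : Fin d ⊕ Fin (d - 1)) ∉ F := by
        by_contra hcon
        push Not at hcon
        have h1 : (Finset.univ.image (fun y : Fin (d - 1) =>
            (Sum.inr y : Fin d ⊕ Fin (d - 1)))) ⊆ F := by
          intro x hx
          obtain ⟨i, _, rfl⟩ := Finset.mem_image.1 hx
          exact hcon i
        have h2 := Finset.card_le_card h1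
        rw [Finset.card_image_of_injective _ Sum.inr_injective, Finset.card_univ,
          Fintype.card_fin] at h2
        omega
      obtain ⟨i, hi⟩ : ∃ i : Fin d, (Sum.inl i : Fin d ⊕ Fin (d - 1)) ∉ F := by
        by_contra hcon
        push Not at hcon
        have h1 : (Finset.univ.image (fun i : Fin d =>
            (Sum.inl i : Fin d ⊕ Fin (d - 1)))) ⊆ F := by
          intro x hx
          obtain ⟨i, _, rfl⟩ := Finset.mem_image.1 hx
          exact hcon i
        have h2 := Finset.card_le_card h1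
        rw [Finset.card_image_of_injective _ Sum.inl_injective, Finset.card_univ,
          Fintype.card_fin] at h2
        omega
      have hub : ∀ b : Fin d ⊕ Fin (d - 1), b ∉ F → Av (bGraph d k)
          (F : Set (Fin d ⊕ Fin (d - 1))) b (Sum.inr y) := by
        rintro (x | x) hx
        · exact Av.single (G := bGraph d k) trivial hx hy
        · exact Av.trans (b := Sum.inl i) (Av.single (G := bGraph d k) trivial hx hi)
            (Av.single (G := bGraph d k) trivial hi hy)
      intro b b' hb hb'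
      exact (hub b hb).trans (hub b' hb').symm
    · rintro ⟨j, x⟩ ⟨i, hi⟩
      have hi' : Sum.inl (Fin.castLE hkd i) = x := hi
      subst hi'
      have h1 := bGraph_degree_lt (d := d) (k := k) (Fin.castLE hkd i) i.2
      rw [copies_degree]
      show ((bGraph d k).neighborSet (Sum.inl (Fin.castLE hkd i))).ncard + 1 = d
      omega
    · rintro ⟨j, x | x⟩ hx
      · have hxk : k ≤ x.1 := by
          by_contra hcon
          exact hx ⟨⟨x.1, by omega⟩, rfl⟩
        have h1 := bGraph_degree_ge hdk x hxk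
        rw [copies_degree]
        show ((bGraph d k).neighborSet (Sum.inl x)).ncard = d
        omega
      · rw [copies_degree, bGraph_degree_inr]
    · rintro x y ⟨h, _⟩
      rw [h]
  have h01 : (⟨0, by omega⟩ : Fin m) ≠ ⟨1, by omega⟩ := by
    intro h
    have := congrArg Fin.val h
    simp at this
  refine ⟨(main _ _ h01).1, (main _ _ h01).2.1, ?_, (main _ _ h01).2.2.2⟩
  intro j j' hjj
  exact (main j j' hjj).2.2.1

end BlobB

end Pool.Agent.H.MP_520f61_co
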