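import Pool.Agent.H.MP_520f61_co.Defs

set_option autoImplicit false

namespace Pool.Agent.H.MP_520f61_co

open SimpleGraph

/-- `Av G F a b`: `b` can be reached from `a` by steps of `G` inside the complement of `F`. -/
def Av {V : Type} (G : SimpleGraph V) (F : Set V) (a b : V) : Prop :=
  Relation.ReflTransGen (fun x y => G.Adj x y ∧ x ∉ F ∧ y ∉ F) a b

namespace Av

variable {V : Type} {G : SimpleGraph V} {F : Set V} {a b c : V}

theorem refl (G : SimpleGraph V) (F : Set V) (a : V) : Av G F a a := Relation.ReflTransGen.refl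

theorem trans (h : Av G F a b) (h' : Av G F b c) : Av G F a c := Relation.ReflTransGen.trans h h'

theorem symm (h : Av G F a b) : Av G F b a := by
  induction h with
  | refl => exact refl _ _ _
  | tail _ h2 ih => exact Relation.ReflTransGen.head ⟨h2.1.symm, h2.2.2, h2.2.1⟩ ih

theorem single (h : G.Adj a b) (ha : a ∉ F) (hb : b ∉ F) : Av G F a b :=
  Relation.ReflTransGen.single ⟨h, ha, hb⟩

theorem notMem (h : Av G F a b) (ha : a ∉ F) : b ∉ F := by
  rcases Relation.ReflTransGen.cases_tail h with h | ⟨c, _, h⟩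
  · rw [h]; exact ha
  · exact h.2.2

/-- transport along a map which sends edges to edges or to equalities -/
theorem map {V' : Type} {G' : SimpleGraph V'} {F' : Set V'} {x y : V'} (f : V' → V)
    (hf : ∀ x y, G'.Adj x y → x ∉ F' → y ∉ F' → Av G F (f x) (f y))
    (h : Av G' F' x y) : Av G F (f x) (f y) := by
  induction h with
  | refl => exact refl _ _ _
  | tail _ h2 ih => exact ih.trans (hf _ _ h2.1 h2.2.1 h2.2.2)

theorem exists_path (h : Av G F a b) (ha : a ∉ F) :
    ∃ q : G.Walk a b, q.IsPath ∧ ∀ x ∈ q.support, x ∉ F := by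
  classical
  have : ∃ q : G.Walk a b, ∀ x ∈ q.support, x ∉ F := by
    induction h with
    | refl => exact ⟨Walk.nil, by simpa using ha⟩
    | tail h1 h2 ih =>
      obtain ⟨q, hq⟩ := ih
      refine ⟨q.concat h2.1, ?_⟩
      intro x hx
      rw [Walk.support_concat] at hx
      simp only [List.mem_append, List.mem_singleton] at hx
      rcases hx with hx | hx
      · exact hq x hx
      · rw [hx]; exact h2.2.2
  obtain ⟨q, hq⟩ := this
  exact ⟨q.bypass, q.bypass_isPath, fun x hx => hq x (q.support_bypass_subset_support hx)⟩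

/-- the last vertex before the first visit of `b` -/
theorem exists_last (h : Av G F a b) (hab : a ≠ b) :
    ∃ z, Av G (insert b F) a z ∧ G.Adj z b ∧ z ∉ F := by
  induction h using Relation.ReflTransGen.head_induction_on with
  | refl => exact absurd rfl hab
  | head h1 h2 ih =>
    rename_i x y
    by_cases hy : y = b
    · subst hy
      exact ⟨x, refl _ _ _, h1.1, h1.2.1⟩
    · obtain ⟨z, hz1, hz2, hz3⟩ := ih hy
      refine ⟨z, ?_, hz2, hz3⟩
      refine trans (single h1.1 ?_ ?_) hz1
      · simp only [Set.mem_insert_iff, not_or]; exact ⟨hab, h1.2.1⟩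
      · simp only [Set.mem_insert_iff, not_or]; exact ⟨hy, h1.2.2⟩

end Av

theorem induce_preconnected_iff {V : Type} (G : SimpleGraph V) (F : Finset V) :
    (G.induce {v : V | v ∉ F}).Preconnected ↔
      ∀ a b : V, a ∉ F → b ∉ F → Av G (F : Set V) a b := by
  constructor
  · intro h a b ha hb
    have := h ⟨a, ha⟩ ⟨b, hb⟩
    rw [reachable_iff_reflTransGen] at this
    have key : ∀ x y : {v : V | v ∉ F},
        Relation.ReflTransGen (G.induce {v : V | v ∉ F}).Adj x y → Av G (F : Set V) x.1 y.1 := by
      intro x y hxy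
      induction hxy with
      | refl => exact Av.refl _ _ _
      | tail _ h2 ih =>
        rename_i y z _
        exact ih.trans (Av.single h2 (fun h => y.2 (Finset.mem_coe.1 h))
          (fun h => z.2 (Finset.mem_coe.1 h)))
    exact key _ _ this
  · intro h x y
    have := h x.1 y.1 x.2 y.2
    rw [reachable_iff_reflTransGen]
    have key : ∀ a b : V, Av G (F : Set V) a b → ∀ (ha : a ∉ F) (hb : b ∉ F),
        Relation.ReflTransGen (G.induce {v : V | v ∉ F}).Adj ⟨a, ha⟩ ⟨b, hb⟩ := by
      intro a b hab
      induction hab with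
      | refl => intro _ _; exact Relation.ReflTransGen.refl
      | tail _ h2 ih =>
        intro ha hb
        exact (ih ha (by simpa using h2.2.1)).tail h2.1
    exact key _ _ this x.2 y.2

theorem KConnected.av {V : Type} [Fintype V] {k : ℕ} {G : SimpleGraph V} (h : KConnected k G)
    (F : Finset V) (hF : F.card < k) (a b : V) (ha : a ∉ F) (hb : b ∉ F) :
    Av G (F : Set V) a b := by
  rcases h with h | h
  · omega
  · exact (induce_preconnected_iff G F).1 (h.2 F hF).preconnected a b ha hb

theorem KConnected.of_av {V : Type} [Fintype V] {k : ℕ} {G : SimpleGraph V}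
    (hc : k < Fintype.card V)
    (h : ∀ F : Finset V, F.card < k → ∀ a b : V, a ∉ F → b ∉ F → Av G (F : Set V) a b) :
    KConnected k G := by
  classical
  right
  refine ⟨hc, fun F hF => ?_⟩
  rw [connected_iff]
  refine ⟨(induce_preconnected_iff G F).2 (h F hF), ?_⟩
  have : F.card < (Finset.univ : Finset V).card := by
    rw [Finset.card_univ]; omega
  obtain ⟨x, _, hx⟩ := Finset.exists_mem_notMem_of_card_lt_card this
  exact ⟨⟨x, hx⟩⟩

theorem KConnected.mono {V : Type} [Fintype V] {k k' : ℕ} {G : SimpleGraph V}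
    (h : KConnected k G) (hk : k' ≤ k) : KConnected k' G := by
  rcases h with h | h
  · left; omega
  · right
    exact ⟨by omega, fun F hF => h.2 F (by omega)⟩

/-- If the interior of a path is contained in `F` and the ends are connected outside `F`,
the path closes. -/
theorem closes_of_av {V : Type} {G : SimpleGraph V} {u v : V} (p : G.Walk u v) (hp : p.IsPath)
    (hl : 1 < p.length) (F : Set V) (hv : v ∉ F)
    (hF : ∀ x ∈ p.support, x ≠ u → x ≠ v → x ∈ F) (h : Av G F v u) : ClosesToCycle p := by
  obtain ⟨q, hq, hqF⟩ := h.exists_path hv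
  refine ⟨u, p.append q, ?_, ?_⟩
  · refine hp.isCycle_append hq ?_ (Or.inl hl)
    intro x hx hx'
    have h1 : x ≠ u := by
      rintro rfl
      have := hp.support_nodup
      rw [← Walk.cons_tail_support] at this
      exact (List.nodup_cons.1 this).1 hx
    have h2 : x ≠ v := by
      rintro rfl
      have := hq.support_nodup
      rw [← Walk.cons_tail_support] at this
      exact (List.nodup_cons.1 this).1 hx'
    exact hqF x (List.mem_of_mem_tail hx') (hF x (List.mem_of_mem_tail hx) h1 h2)
  · rw [Walk.toSubgraph_append]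
    exact le_sup_left

theorem ClosesToCycle.of_cons {V : Type} {G : SimpleGraph V} {w u v : V} {h : G.Adj w u}
    {p : G.Walk u v} (hp : ClosesToCycle (Walk.cons h p)) : ClosesToCycle p := by
  obtain ⟨x, c, hc, hle⟩ := hp
  exact ⟨x, c, hc, le_trans (by simp [Walk.toSubgraph]) hle⟩

/-- If a set `F` of vertices of the path `p` separates its ends, then `p` does not close. -/
theorem not_closes_of_sep {V : Type} [Finite V] {G : SimpleGraph V} {u v : V} (p : G.Walk u v)
    (hp : p.IsPath) (F : Set V) (hu : u ∉ F) (hv : v ∉ F) (hF : ∀ x ∈ F, x ∈ p.support)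
    (hsep : ¬ Av G F u v) : ¬ ClosesToCycle p := by
  classical
  rintro ⟨w, c, hc, hle⟩
  have hnil : ¬ p.Nil := by
    intro h
    have := h.eq
    subst this
    exact hsep (Av.refl _ _ _)
  have huc : u ∈ c.support := by
    rw [← Walk.mem_verts_toSubgraph]
    exact hle.1 (Walk.start_mem_verts_toSubgraph p)
  -- rotate the cycle so that it starts at `u`
  obtain ⟨c1, hc1, hc1s⟩ : ∃ c1 : G.Walk u u, c1.IsCycle ∧ c1.toSubgraph = c.toSubgraph :=
    ⟨c.rotate u huc, hc.rotate huc, Walk.toSubgraph_rotate c huc⟩
  rw [← hc1s] at hle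
  clear hc1s
  have hadj : c1.toSubgraph.Adj u p.snd := hle.2 (p.toSubgraph_adj_snd hnil)
  obtain ⟨c2, hc2, hc2s, hsnd⟩ : ∃ c2 : G.Walk u u, c2.IsCycle ∧
      c2.toSubgraph = c1.toSubgraph ∧ c2.snd = p.snd := by
    have : p.snd ∈ c1.toSubgraph.neighborSet u := hadj
    rw [hc1.neighborSet_toSubgraph_endpoint] at this
    rcases this with h | h
    · exact ⟨c1, hc1, rfl, h.symm⟩
    · refine ⟨c1.reverse, hc1.reverse, Walk.toSubgraph_reverse _, ?_⟩
      rw [Set.mem_singleton_iff] at h
      rw [h, Walk.penultimate, ← Walk.getVert_reverse]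
  rw [← hc2s] at hle
  clear hadj hc1 hc2s
  cases c2 with
  | nil => exact hc2.ne_nil rfl
  | cons h2 c3 =>
    rename_i s
    have hs : s = p.snd := by simpa using hsnd
    rw [Walk.cons_isCycle_iff] at hc2
    obtain ⟨hc3, hc3e⟩ := hc2
    set C : G.Walk u u := Walk.cons h2 c3 with hC
    have hCcyc : C.IsCycle := (Walk.cons_isCycle_iff _ _).2 ⟨hc3, hc3e⟩
    set X : Set V := {x | Av G F u x ∧ ¬ (x ∈ p.support ∧ x ≠ u ∧ x ≠ v)} with hX
    have huX : u ∈ X := ⟨Av.refl _ _ _, by simp⟩
    have hsX : s ∉ X := by
      rintro ⟨h3, h4⟩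
      apply h4
      refine ⟨?_, h2.ne', ?_⟩
      · rw [hs]; exact Walk.getVert_mem_support _ _
      · rintro rfl; exact hsep h3
    obtain ⟨e, he, he1, he2⟩ := c3.reverse.exists_boundary_dart X huX hsX
    obtain ⟨⟨a, b⟩, hab⟩ := e
    simp only at he1 he2
    have hab' : s(a, b) ∈ c3.edges := by
      have : s(a, b) ∈ c3.reverse.edges := by
        rw [Walk.edges]
        exact List.mem_map.2 ⟨_, he, rfl⟩
      simpa using this
    have haF : a ∉ F := Av.notMem he1.1 hu
    -- `b` is an internal vertex of `p`
    have hb : b ∈ p.support ∧ b ≠ u ∧ b ≠ v := by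
      by_contra hcon
      apply he2
      refine ⟨?_, hcon⟩
      refine he1.1.trans (Av.single hab haF ?_)
      intro hbF
      apply hcon
      refine ⟨hF b hbF, ?_, ?_⟩
      · rintro rfl; exact hu hbF
      · rintro rfl; exact hv hbF
    have hCab : C.toSubgraph.Adj b a := by
      refine Subgraph.Adj.symm ?_
      rw [← Subgraph.mem_edgeSet, Walk.mem_edges_toSubgraph, hC, Walk.edges_cons]
      exact List.mem_cons_of_mem _ hab'
    obtain ⟨i, hi, hi2⟩ := (Walk.mem_support_iff_exists_getVert).1 hb.1
    have hi0 : i ≠ 0 := by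
      rintro rfl
      exact hb.2.1 (by rw [← hi]; simp)
    have hil : i < p.length := by
      rcases lt_or_eq_of_le hi2 with h | h
      · exact h
      · exfalso
        apply hb.2.2
        rw [← hi, h]; simp
    have hcard1 := hp.ncard_neighborSet_toSubgraph_internal_eq_two hi0 hil
    rw [hi] at hcard1
    have hbC : b ∈ C.support := by
      rw [← Walk.mem_verts_toSubgraph]
      exact C.toSubgraph.edge_vert hCab
    have hcard2 := hCcyc.ncard_neighborSet_toSubgraph_eq_two hbC
    have hsub : p.toSubgraph.neighborSet b ⊆ C.toSubgraph.neighborSet b := fun y hy => hle.2 hy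
    have heq : p.toSubgraph.neighborSet b = C.toSubgraph.neighborSet b :=
      Set.eq_of_subset_of_ncard_le hsub (by rw [hcard1, hcard2]) (Set.toFinite _)
    have hpab : p.toSubgraph.Adj b a := by
      have : a ∈ C.toSubgraph.neighborSet b := hCab
      rw [← heq] at this
      exact this
    have hap : a ∈ p.support := Walk.mem_support_of_adj_toSubgraph hpab.symm
    have hau : a = u := by
      by_contra hau
      apply he1.2
      refine ⟨hap, hau, ?_⟩
      rintro rfl
      exact hsep he1.1
    subst hau
    have := hp.snd_of_toSubgraph_adj hpab.symm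
    apply hc3e
    have hsb : (s(a, s) : Sym2 V) = s(a, b) := by rw [hs.trans this]
    rw [hsb]
    exact hab'

end Pool.Agent.H.MP_520f61_co
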