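import Mathlib

set_option autoImplicit false

namespace Pool.Agent.H.MP_520f61_co

open SimpleGraph

/-- `G` is `k`-connected: every graph is `0`-connected; for `k ≥ 1`, `G` has more than `k`
vertices and remains connected after deleting any set of fewer than `k` vertices. -/
def KConnected {V : Type} [Fintype V] (k : ℕ) (G : SimpleGraph V) : Prop :=
  k = 0 ∨ (k < Fintype.card V ∧
    ∀ F : Finset V, F.card < k → (G.induce {v : V | v ∉ F}).Connected)

/-- The path `p` closes to a cycle: some cycle of `G` contains `p` as a subgraph. -/
def ClosesToCycle {V : Type} {G : SimpleGraph V} {u v : V} (p : G.Walk u v) : Prop :=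
  ∃ (w : V) (c : G.Walk w w), c.IsCycle ∧ p.toSubgraph ≤ c.toSubgraph

/-- `S d k`: the set of all `ℓ` such that in every finite simple `d`-regular `k`-connected graph
every path with exactly `ℓ` edges closes to a cycle. -/
def S (d k : ℕ) : Set ℕ :=
  {ℓ | ∀ (V : Type) [Fintype V] (G : SimpleGraph V),
    (∀ v : V, (G.neighborSet v).ncard = d) → KConnected k G →
      ∀ (u v : V) (p : G.Walk u v), p.IsPath → p.length = ℓ → ClosesToCycle p}

end Pool.Agent.H.MP_520f61_co
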