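import Pool.Agent.H.MP_520f61_co.Conn

set_option autoImplicit false

namespace Pool.Agent.H.MP_520f61_co

open SimpleGraph

/-- `NCS d k ℓ`: there is a `d`-regular `k`-connected graph with an `ℓ`-edge path containing a set
`F` of vertices which separates its two ends. -/
def NCS (d k ℓ : ℕ) : Prop :=
  ∃ (V : Type) (_ : Fintype V) (G : SimpleGraph V),
    (∀ v : V, (G.neighborSet v).ncard = d) ∧ KConnected k G ∧
    ∃ (F : Set V) (u v : V) (p : G.Walk u v), p.IsPath ∧ p.length = ℓ ∧ u ∉ F ∧ v ∉ F ∧
      (∀ x ∈ F, x ∈ p.support) ∧ ¬ Av G F u v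

theorem NCS.notMem {d k ℓ : ℕ} (h : NCS d k ℓ) : ℓ ∉ S d k := by
  obtain ⟨V, _, G, hreg, hk, F, u, v, p, hp, hl, hu, hv, hF, hsep⟩ := h
  intro hmem
  exact not_closes_of_sep p hp F hu hv hF hsep (hmem V G hreg hk u v p hp hl)

theorem NCS.mono {d k k' ℓ : ℕ} (h : NCS d k ℓ) (hk : k' ≤ k) : NCS d k' ℓ := by
  obtain ⟨V, _, G, hreg, hk', rest⟩ := h
  exact ⟨V, _, G, hreg, hk'.mono hk, rest⟩

section Expand

variable {V : Type} (G : SimpleGraph V) (z : V)

/-- vertices of the graph in which `z` is replaced by a clique, one vertex per neighbour -/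
abbrev EV : Type := {a : V // a ≠ z} ⊕ {w : V // G.Adj z w}

/-- the adjacency after expansion of `z` -/
def eAdj : EV G z → EV G z → Prop
  | Sum.inl a, Sum.inl b => G.Adj a.1 b.1
  | Sum.inl a, Sum.inr w => a.1 = w.1
  | Sum.inr w, Sum.inl a => a.1 = w.1
  | Sum.inr w, Sum.inr w' => w.1 ≠ w'.1

/-- expansion of the vertex `z` into a clique -/
def eGraph : SimpleGraph (EV G z) where
  Adj := eAdj G z
  symm := ⟨by
    rintro (a | a) (b | b) h
    · exact SimpleGraph.Adj.symm (G := G) h
    · exact h
    · exact h
    · exact Ne.symm h⟩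
  loopless := ⟨by
    rintro (a | a) h
    · exact G.loopless.irrefl _ h
    · exact h rfl⟩

/-- projection contracting the clique -/
def epi : EV G z → V
  | Sum.inl a => a.1
  | Sum.inr _ => z

/-- the other projection -/
def erho : EV G z → V
  | Sum.inl a => a.1
  | Sum.inr w => w.1

variable {G z}

theorem eGraph_degree [Finite V] {d : ℕ} (hreg : ∀ v : V, (G.neighborSet v).ncard = d)
    (x : EV G z) : ((eGraph G z).neighborSet x).ncard = d := by
  rcases x with a | w
  · have himg : epi G z '' ((eGraph G z).neighborSet (Sum.inl a)) = G.neighborSet a.1 := by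
      ext b
      constructor
      · rintro ⟨y, hy, rfl⟩
        rcases y with y | y
        · exact hy
        · have hy' : a.1 = y.1 := hy
          show G.Adj a.1 z
          rw [hy']; exact y.2.symm
      · intro hb
        have hb' : G.Adj a.1 b := hb
        by_cases hbz : b = z
        · subst hbz
          exact ⟨Sum.inr ⟨a.1, hb'.symm⟩, rfl, rfl⟩
        · exact ⟨Sum.inl ⟨b, hbz⟩, hb', rfl⟩
    have hinj : Set.InjOn (epi G z) ((eGraph G z).neighborSet (Sum.inl a)) := by
      rintro (x | x) hx (y | y) hy hxy
      · have : x.1 = y.1 := hxy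
        rw [Subtype.ext this]
      · exact absurd hxy x.2
      · exact absurd hxy.symm y.2
      · have h1 : a.1 = x.1 := hx
        have h2 : a.1 = y.1 := hy
        rw [Subtype.ext (h1.symm.trans h2)]
    rw [← hinj.ncard_image, himg, hreg]
  · have himg : erho G z '' ((eGraph G z).neighborSet (Sum.inr w)) = G.neighborSet z := by
      ext b
      constructor
      · rintro ⟨y, hy, rfl⟩
        rcases y with y | y
        · have hy' : y.1 = w.1 := hy
          show G.Adj z y.1
          rw [hy']; exact w.2
        · exact y.2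
      · intro hb
        have hb' : G.Adj z b := hb
        by_cases hbw : b = w.1
        · exact ⟨Sum.inl ⟨b, hb'.ne'⟩, hbw, rfl⟩
        · exact ⟨Sum.inr ⟨b, hb'⟩, fun h => hbw h.symm, rfl⟩
    have hinj : Set.InjOn (erho G z) ((eGraph G z).neighborSet (Sum.inr w)) := by
      rintro (x | x) hx (y | y) hy hxy
      · have : x.1 = y.1 := hxy
        rw [Subtype.ext this]
      · have h1 : x.1 = w.1 := hx
        have h2 : x.1 = y.1 := hxy
        exact absurd (h1.symm.trans h2) hy
      · have h1 : y.1 = w.1 := hy
        have h2 : x.1 = y.1 := hxy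
        exact absurd (h2.trans h1).symm hx
      · have : x.1 = y.1 := hxy
        rw [Subtype.ext this]
    rw [← hinj.ncard_image, himg, hreg]

theorem eGraph_kConnected [Fintype V] [Fintype (EV G z)] {d k : ℕ}
    (hreg : ∀ v : V, (G.neighborSet v).ncard = d) (hkd : k ≤ d) (hd : 1 ≤ d)
    (hk : KConnected k G) : KConnected k (eGraph G z) := by
  classical
  refine KConnected.of_av ?_ ?_
  · -- cardinality
    have h1 : (G.neighborSet z).ncard = d := hreg z
    obtain ⟨w, hw⟩ : (G.neighborSet z).Nonempty := by
      rw [← Set.ncard_pos (Set.toFinite _), h1]; omega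
    have hw' : G.Adj z w := hw
    have h2 : Nat.card {w : V // G.Adj z w} = d := h1
    have h3 : 0 < Nat.card {a : V // a ≠ z} :=
      Nat.card_pos_iff.2 ⟨⟨⟨w, hw'.ne'⟩⟩, inferInstance⟩
    rw [← Nat.card_eq_fintype_card, Nat.card_sum]
    omega
  · intro F hF
    -- a good neighbour
    obtain ⟨w0, hw0, hw0r, hw0l⟩ : ∃ (w : V) (h : G.Adj z w),
        (Sum.inr ⟨w, h⟩ : EV G z) ∉ F ∧ (Sum.inl ⟨w, h.ne'⟩ : EV G z) ∉ F := by
      by_contra hcon
      push Not at hcon
      have hsub : G.neighborSet z ⊆ ((F.image (erho G z) : Finset V) : Set V) := by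
        intro w hw
        have hw' : G.Adj z w := hw
        rw [Finset.coe_image]
        by_cases h : (Sum.inr ⟨w, hw'⟩ : EV G z) ∈ F
        · exact ⟨_, h, rfl⟩
        · exact ⟨_, hcon w hw' h, rfl⟩
      have := Set.ncard_le_ncard hsub (Finset.finite_toSet _)
      rw [hreg, Set.ncard_coe_finset] at this
      have := Finset.card_image_le (s := F) (f := erho G z)
      omega
    set F0 : Finset V := F.image (epi G z) with hF0
    have hF0c : F0.card < k := lt_of_le_of_lt Finset.card_image_le hF
    have hF0mem : ∀ x : EV G z, epi G z x ∉ F0 → x ∉ F := by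
      intro x hx hxF
      exact hx (Finset.mem_image_of_mem _ hxF)
    by_cases hcase : ∃ (w : V) (h : G.Adj z w), (Sum.inr ⟨w, h⟩ : EV G z) ∈ F
    · -- `z ∈ F0`
      obtain ⟨w1, hw1, hw1F⟩ := hcase
      have hz : z ∈ F0 := Finset.mem_image.2 ⟨_, hw1F, rfl⟩
      have hl : ∀ a b : V, Av G (F0 : Set V) a b → ∀ (ha : a ≠ z) (hb : b ≠ z),
          Av (eGraph G z) (F : Set (EV G z)) (Sum.inl ⟨a, ha⟩) (Sum.inl ⟨b, hb⟩) := by
        intro a b hab
        induction hab with
        | refl => intro _ _; exact Av.refl _ _ _
        | tail _ h2 ih =>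
          rename_i x y _
          intro ha hb
          have hx : x ≠ z := by
            rintro rfl
            exact h2.2.1 (Finset.mem_coe.2 hz)
          refine (ih ha hx).trans (Av.single h2.1 ?_ ?_)
          · intro hh
            exact h2.2.1 (Finset.mem_coe.2 (Finset.mem_image.2 ⟨_, Finset.mem_coe.1 hh, rfl⟩))
          · intro hh
            exact h2.2.2 (Finset.mem_coe.2 (Finset.mem_image.2 ⟨_, Finset.mem_coe.1 hh, rfl⟩))
      have hinlF : ∀ (a : V) (ha : a ≠ z), (Sum.inl ⟨a, ha⟩ : EV G z) ∉ F → a ∉ F0 := by
        intro a ha haF hmem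
        obtain ⟨y, hy, hya⟩ := Finset.mem_image.1 hmem
        rcases y with y | y
        · have : y.1 = a := hya
          subst this
          exact haF hy
        · exact ha hya.symm
      have hub : ∀ x : EV G z, x ∉ F → Av (eGraph G z) (F : Set (EV G z)) x
          (Sum.inl ⟨w0, hw0.ne'⟩) := by
        rintro (a | w) hx
        · exact hl a.1 w0 (hk.av F0 hF0c _ _ (hinlF a.1 a.2 hx) (hinlF w0 hw0.ne' hw0l)) a.2 hw0.ne'
        · have h2 : Av (eGraph G z) (F : Set (EV G z)) (Sum.inr ⟨w0, hw0⟩)
              (Sum.inl ⟨w0, hw0.ne'⟩) := Av.single rfl hw0r hw0l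
          by_cases hww : w.1 = w0
          · have : w = ⟨w0, hw0⟩ := Subtype.ext hww
            rw [this]; exact h2
          · exact (Av.single (F := (F : Set (EV G z))) (G := eGraph G z)
              (a := Sum.inr w) (b := Sum.inr ⟨w0, hw0⟩) hww hx hw0r).trans h2
      intro a b ha hb
      exact (hub a ha).trans (hub b hb).symm
    · push Not at hcase
      have hrF : ∀ w : {w : V // G.Adj z w}, (Sum.inr w : EV G z) ∉ F := fun w => hcase w.1 w.2
      have hzF0 : z ∉ F0 := by
        intro hmem
        obtain ⟨y, hy, hya⟩ := Finset.mem_image.1 hmem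
        rcases y with y | y
        · exact y.2 hya
        · exact hrF y hy
      have hinlF : ∀ (a : V) (ha : a ≠ z), (Sum.inl ⟨a, ha⟩ : EV G z) ∉ F → a ∉ F0 := by
        intro a ha haF hmem
        obtain ⟨y, hy, hya⟩ := Finset.mem_image.1 hmem
        rcases y with y | y
        · have : y.1 = a := hya
          subst this
          exact haF hy
        · exact ha hya.symm
      have hrr : ∀ w w' : {w : V // G.Adj z w},
          Av (eGraph G z) (F : Set (EV G z)) (Sum.inr w) (Sum.inr w') := by
        intro w w'
        by_cases hww : w.1 = w'.1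
        · rw [Subtype.ext hww]; exact Av.refl _ _ _
        · exact Av.single (G := eGraph G z) hww (hrF w) (hrF w')
      -- lifting
      have hl : ∀ a b : V, Av G (F0 : Set V) a b → ∀ x y : EV G z, epi G z x = a →
          epi G z y = b → x ∉ F → y ∉ F → Av (eGraph G z) (F : Set (EV G z)) x y := by
        intro a b hab
        induction hab with
        | refl =>
          rintro x y hx hy hxF hyF
          rcases x with x | x <;> rcases y with y | y
          · have : x.1 = y.1 := hx.trans hy.symm
            rw [Subtype.ext this]; exact Av.refl _ _ _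
          · exact absurd (hx.trans hy.symm) x.2
          · exact absurd (hy.trans hx.symm) y.2
          · exact hrr x y
        | tail h1 h2 ih =>
          rename_i b c
          rintro x y hx hy hxF hyF
          by_cases hbz : b = z
          · -- previous vertex is `z`
            subst hbz
            have hc : c ≠ b := h2.1.ne'
            rcases y with y | y
            · have hyc : y.1 = c := hy
              have hadj : G.Adj b y.1 := by rw [hyc]; exact h2.1
              have e1 := ih x (Sum.inr ⟨y.1, hadj⟩) hx rfl hxF (hrF _)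
              exact e1.trans (Av.single (G := eGraph G b) (a := Sum.inr ⟨y.1, hadj⟩)
                (b := Sum.inl y) rfl (hrF _) hyF)
            · exact absurd hy.symm hc
          · have hbF : (Sum.inl ⟨b, hbz⟩ : EV G z) ∉ F := hF0mem _ h2.2.1
            have e1 := ih x (Sum.inl ⟨b, hbz⟩) hx rfl hxF hbF
            rcases y with y | y
            · have hyc : y.1 = c := hy
              refine e1.trans (Av.single (G := eGraph G z) ?_ hbF hyF)
              show G.Adj b y.1
              rw [hyc]; exact h2.1
            · have hyc : z = c := hy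
              have hadj : G.Adj z b := by rw [hyc]; exact h2.1.symm
              refine (e1.trans (Av.single (G := eGraph G z) (b := Sum.inr ⟨b, hadj⟩) ?_ hbF
                (hrF _))).trans (hrr _ _)
              exact rfl
      intro x y hx hy
      refine hl _ _ (hk.av F0 hF0c (epi G z x) (epi G z y) ?_ ?_) x y rfl rfl hx hy
      · rcases x with x | x
        · exact hinlF x.1 x.2 hx
        · exact hzF0
      · rcases y with y | y
        · exact hinlF y.1 y.2 hy
        · exact hzF0

/-- inclusion of `G - z` into the expansion -/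
def eHom : (G.induce {a : V | a ≠ z}) →g eGraph G z where
  toFun a := Sum.inl ⟨a.1, a.2⟩
  map_rel' := by
    intro a b h
    exact h

theorem NCS.succ {d k ℓ : ℕ} (hd : 2 ≤ d) (hkd : k ≤ d) (hℓ : 1 ≤ ℓ) (h : NCS d k ℓ) :
    NCS d k (ℓ + 1) := by
  classical
  obtain ⟨V, _, G, hreg, hk, F, z, u, p, hp, hl, hz, hu, hF, hsep⟩ := h
  cases p with
  | nil => simp at hl; omega
  | cons hzx q =>
    rename_i x
    have : Fintype (EV G z) := Fintype.ofFinite _
    refine ⟨EV G z, inferInstance, eGraph G z, eGraph_degree hreg,
      eGraph_kConnected hreg hkd (by omega) hk, ?_⟩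
    rw [Walk.cons_isPath_iff] at hp
    obtain ⟨hq, hzq⟩ := hp
    -- another neighbour of `z`
    obtain ⟨w, hw, hwx⟩ : ∃ w, G.Adj z w ∧ w ≠ x := by
      have : ¬ (G.neighborSet z ⊆ {x}) := by
        intro h
        have := Set.ncard_le_ncard h (Set.toFinite _)
        rw [hreg, Set.ncard_singleton] at this
        omega
      rw [Set.not_subset] at this
      obtain ⟨y, hy, hy2⟩ := this
      exact ⟨y, hy, hy2⟩
    have hqs : ∀ a ∈ q.support, a ∈ {a : V | a ≠ z} := by
      rintro a ha rfl
      exact hzq ha
    have hxz : x ≠ z := hzx.ne'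
    have huz : u ≠ z := hqs u q.end_mem_support
    let q' : (eGraph G z).Walk (Sum.inl ⟨x, hxz⟩) (Sum.inl ⟨u, huz⟩) :=
      (q.induce {a : V | a ≠ z} hqs).map eHom
    have hq's : q'.support = (q.support.attachWith _ hqs).map (eHom (G := G) (z := z)) := by
      show ((q.induce {a : V | a ≠ z} hqs).map eHom).support = _
      rw [Walk.support_map, Walk.support_induce]
    have hq'mem : ∀ y : EV G z, y ∈ q'.support ↔ ∃ (a : V) (ha : a ≠ z), a ∈ q.support ∧
        y = Sum.inl ⟨a, ha⟩ := by
      intro y
      rw [hq's, List.mem_map]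
      constructor
      · rintro ⟨a, ha, rfl⟩
        rw [List.mem_attachWith] at ha
        exact ⟨a.1, a.2, ha, rfl⟩
      · rintro ⟨a, ha, hmem, rfl⟩
        exact ⟨⟨a, ha⟩, (List.mem_attachWith hqs _).2 hmem, rfl⟩
    have hq'path : q'.IsPath := by
      refine Walk.IsPath.map (f := eHom) ?_ ?_
      · intro a b hab
        have h1 : (Sum.inl ⟨a.1, a.2⟩ : EV G z) = Sum.inl ⟨b.1, b.2⟩ := hab
        have h2 := Sum.inl_injective h1
        exact Subtype.ext (Subtype.mk.inj h2)
      · refine Walk.IsPath.mk' ?_
        have hnd := hq.support_nodup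
        rw [Walk.support_induce]
        exact List.Nodup.of_map Subtype.val (by rwa [List.attachWith_map_subtype_val])
    have h1 : (eGraph G z).Adj (Sum.inr ⟨x, hzx⟩) (Sum.inl ⟨x, hxz⟩) := rfl
    have h2 : (eGraph G z).Adj (Sum.inr ⟨w, hw⟩) (Sum.inr ⟨x, hzx⟩) := hwx
    refine ⟨epi G z ⁻¹' F, Sum.inr ⟨w, hw⟩, Sum.inl ⟨u, huz⟩,
      Walk.cons h2 (Walk.cons h1 q'), ?_, ?_, hz, hu, ?_, ?_⟩
    · rw [Walk.cons_isPath_iff, Walk.cons_isPath_iff]
      refine ⟨⟨hq'path, ?_⟩, ?_⟩
      · rw [hq'mem]
        rintro ⟨a, ha, _, h⟩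
        exact Sum.inr_ne_inl h
      · rw [Walk.support_cons, List.mem_cons, hq'mem]
        rintro (h | ⟨a, ha, _, h⟩)
        · exact hwx (Subtype.mk.inj (Sum.inr_injective h))
        · exact Sum.inr_ne_inl h
    · have : q'.length = q.length := by
        show ((q.induce {a : V | a ≠ z} hqs).map eHom).length = _
        rw [Walk.length_map]
        have := congrArg List.length (Walk.support_induce q hqs)
        rw [Walk.length_support, List.length_attachWith, Walk.length_support] at this
        omega
      rw [Walk.length_cons, Walk.length_cons, this]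
      rw [Walk.length_cons] at hl
      omega
    · rintro (y | y) hy
      · have hyF : y.1 ∈ F := hy
        have := hF _ hyF
        rw [Walk.support_cons, List.mem_cons] at this
        rcases this with h | h
        · exact absurd h y.2
        · rw [Walk.support_cons, Walk.support_cons, List.mem_cons, List.mem_cons, hq'mem]
          right; right
          exact ⟨y.1, y.2, h, rfl⟩
      · exact absurd hy hz
    · intro hav
      apply hsep
      refine Av.map (G := G) (F := F) (f := epi G z) ?_ hav
      rintro (a | a) (b | b) hab ha hb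
      · exact Av.single hab ha hb
      · have hab' : a.1 = b.1 := hab
        refine Av.single ?_ ha hb
        show G.Adj a.1 z
        rw [hab']; exact b.2.symm
      · have hab' : b.1 = a.1 := hab
        refine Av.single ?_ ha hb
        show G.Adj z b.1
        rw [hab']; exact a.2
      · exact Av.refl _ _ _

theorem NCS.add {d k ℓ : ℕ} (hd : 2 ≤ d) (hkd : k ≤ d) (hℓ : 1 ≤ ℓ) (h : NCS d k ℓ) {m : ℕ}
    (hm : ℓ ≤ m) : NCS d k m := by
  induction m, hm using Nat.le_induction with
  | base => exact h
  | succ n hn ih => exact ih.succ hd hkd (by omega)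

end Expand

end Pool.Agent.H.MP_520f61_co
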