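import Pool.Agent.H.MP_520f61_co.Expand

set_option autoImplicit false

namespace Pool.Agent.H.MP_520f61_co

open SimpleGraph

section Hub

variable {k : ℕ} {J β : Type} (W : SimpleGraph (J × β)) (port : Fin k → β)

/-- adjacency of the hub graph: a cycle (or edge, or vertex) on `Fin k`, an outer graph `W` on
`J × β`, and for every `j` the vertex `i` of the cycle is joined to `(j, port i)`. -/
def hAdj : Fin k ⊕ (J × β) → Fin k ⊕ (J × β) → Prop
  | Sum.inl i, Sum.inl i' => (cycleGraph k).Adj i i'
  | Sum.inl i, Sum.inr x => x.2 = port i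
  | Sum.inr x, Sum.inl i => x.2 = port i
  | Sum.inr x, Sum.inr y => W.Adj x y

def hGraph : SimpleGraph (Fin k ⊕ (J × β)) where
  Adj := hAdj W port
  symm := ⟨by
    rintro (a | a) (b | b) h
    · exact SimpleGraph.Adj.symm (G := cycleGraph k) h
    · exact h
    · exact h
    · exact SimpleGraph.Adj.symm (G := W) h⟩
  loopless := ⟨by
    rintro (a | a) h
    · exact (cycleGraph k).loopless.irrefl _ h
    · exact W.loopless.irrefl _ h⟩

variable {W port}

theorem hGraph_nbr_inl (i : Fin k) : (hGraph W port).neighborSet (Sum.inl i) =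
    Sum.inl '' ((cycleGraph k).neighborSet i) ∪ (fun j : J => Sum.inr (j, port i)) '' Set.univ := by
  ext (x | ⟨j, b⟩)
  · constructor
    · intro h
      exact Or.inl ⟨x, h, rfl⟩
    · rintro (⟨y, hy, h⟩ | ⟨y, _, h⟩)
      · rw [← Sum.inl_injective h]; exact hy
      · exact absurd h Sum.inr_ne_inl
  · constructor
    · intro h
      have h' : b = port i := h
      exact Or.inr ⟨j, trivial, by rw [h']⟩
    · rintro (⟨y, hy, h⟩ | ⟨y, _, h⟩)
      · exact absurd h Sum.inl_ne_inr
      · have := Sum.inr_injective h
        have h2 : port i = b := (Prod.mk.inj this).2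
        exact h2.symm

theorem hGraph_degree_inl [Finite J] {s : ℕ} (i : Fin k)
    (hs : ((cycleGraph k).neighborSet i).ncard = s) :
    ((hGraph W port).neighborSet (Sum.inl i)).ncard = s + Nat.card J := by
  rw [hGraph_nbr_inl, Set.ncard_union_eq ?_ (Set.toFinite _) (Set.toFinite _),
    Set.ncard_image_of_injective _ Sum.inl_injective, hs, Set.ncard_image_of_injective,
    Set.ncard_univ]
  · intro a b hab
    have := Sum.inr_injective hab
    exact (Prod.mk.inj this).1
  · rw [Set.disjoint_left]
    rintro x ⟨y, _, rfl⟩ ⟨j, _, h⟩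
    exact Sum.inr_ne_inl h

theorem hGraph_degree_inr [Finite J] [Finite β] (hport : Function.Injective port) {d : ℕ} (x : J × β)
    (hW : (∃ i, port i = x.2) → (W.neighborSet x).ncard + 1 = d)
    (hW' : (¬ ∃ i, port i = x.2) → (W.neighborSet x).ncard = d) :
    ((hGraph W port).neighborSet (Sum.inr x)).ncard = d := by
  have h1 : (hGraph W port).neighborSet (Sum.inr x) =
      Sum.inr '' (W.neighborSet x) ∪ {y | ∃ i, port i = x.2 ∧ y = Sum.inl i} := by
    ext (y | y)
    · constructor
      · intro h
        have h' : x.2 = port y := h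
        exact Or.inr ⟨y, h'.symm, rfl⟩
      · rintro (⟨z, _, h⟩ | ⟨i, hi, h⟩)
        · exact absurd h Sum.inr_ne_inl
        · rw [Sum.inl_injective h]
          exact hi.symm
    · constructor
      · intro h
        exact Or.inl ⟨y, h, rfl⟩
      · rintro (⟨z, hz, h⟩ | ⟨i, hi, h⟩)
        · rw [← Sum.inr_injective h]; exact hz
        · exact absurd h Sum.inr_ne_inl
  rw [h1]
  by_cases hex : ∃ i, port i = x.2
  · obtain ⟨i, hi⟩ := hex
    have h2 : {y : Fin k ⊕ (J × β) | ∃ i, port i = x.2 ∧ y = Sum.inl i} = {Sum.inl i} := by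
      ext y
      constructor
      · rintro ⟨i', hi', rfl⟩
        rw [hport (hi'.trans hi.symm)]; rfl
      · rintro rfl
        exact ⟨i, hi, rfl⟩
    rw [h2, Set.ncard_union_eq ?_ (Set.toFinite _) (Set.toFinite _),
      Set.ncard_image_of_injective _ Sum.inr_injective, Set.ncard_singleton]
    · exact hW ⟨i, hi⟩
    · rw [Set.disjoint_left]
      rintro x ⟨y, _, rfl⟩ h
      exact Sum.inr_ne_inl h
  · have h2 : {y : Fin k ⊕ (J × β) | ∃ i, port i = x.2 ∧ y = Sum.inl i} = ∅ := by
      ext y
      simp only [Set.mem_ofPred_eq, Set.mem_empty_iff_false, iff_false]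
      rintro ⟨i, hi, _⟩
      exact hex ⟨i, hi⟩
    rw [h2, Set.union_empty, Set.ncard_image_of_injective _ Sum.inr_injective]
    exact hW' hex

/-- The hub graph is `k`-connected. -/
theorem hGraph_kConnected [Fintype J] [Fintype β] (B : SimpleGraph β)
    (hport : Function.Injective port) (hk : 1 ≤ k) (hJ : 2 ≤ Nat.card J) {d : ℕ} (hkd : k ≤ d)
    (hreg : ∀ i : Fin k, ((hGraph W port).neighborSet (Sum.inl i)).ncard = d)
    (hBW : ∀ j b b', B.Adj b b' → W.Adj (j, b) (j, b'))
    (C1 : ∀ F : Finset β, F.card < k → ∀ b, b ∉ F → ∃ i, port i ∉ F ∧ Av B (F : Set β) b (port i))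
    (C2 : ∀ F : Finset β, F.card + 1 < k → ∀ b b', b ∉ F → b' ∉ F → Av B (F : Set β) b b') :
    KConnected k (hGraph W port) := by
  classical
  have hJ' : 2 ≤ Fintype.card J := by rwa [Nat.card_eq_fintype_card] at hJ
  have hβ : k ≤ Fintype.card β := by
    have := Fintype.card_le_of_injective port hport
    simpa using this
  refine KConnected.of_av ?_ ?_
  · rw [Fintype.card_sum, Fintype.card_prod, Fintype.card_fin]
    have : 1 * 1 ≤ Fintype.card J * Fintype.card β :=
      Nat.mul_le_mul (by omega) (by omega)
    omega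
  · intro F hF
    -- the parts of `F`
    let FB : J → Finset β := fun j => Finset.univ.filter fun b => (Sum.inr (j, b) : Fin k ⊕ (J × β)) ∈ F
    let FS : Finset (Fin k) := Finset.univ.filter fun i => (Sum.inl i : Fin k ⊕ (J × β)) ∈ F
    have hFB : ∀ j b, b ∈ FB j ↔ (Sum.inr (j, b) : Fin k ⊕ (J × β)) ∈ F := by
      intro j b; simp [FB]
    have hFS : ∀ i, i ∈ FS ↔ (Sum.inl i : Fin k ⊕ (J × β)) ∈ F := by
      intro i; simp [FS]
    have hinjr : ∀ j : J, Function.Injective (fun b : β => (Sum.inr (j, b) : Fin k ⊕ (J × β))) := by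
      intro j a b hab
      exact (Prod.mk.inj (Sum.inr_injective hab)).2
    have hFBle : ∀ j, (FB j).card ≤ F.card := by
      intro j
      refine Finset.card_le_card_of_injOn (fun b : β => (Sum.inr (j, b) : Fin k ⊕ (J × β))) ?_
        (fun a _ b _ hab => hinjr j hab)
      intro b hb
      exact (hFB j b).1 hb
    -- lifting connections inside a blob
    have hlift : ∀ j b b', Av B (FB j : Set β) b b' →
        Av (hGraph W port) (F : Set (Fin k ⊕ (J × β))) (Sum.inr (j, b)) (Sum.inr (j, b')) := by
      intro j b b' h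
      refine Av.map (G' := B) (F' := (FB j : Set β))
        (f := fun b : β => (Sum.inr (j, b) : Fin k ⊕ (J × β))) ?_ h
      intro x y hxy hx hy
      refine Av.single (hBW j x y hxy) ?_ ?_
      · intro hh; exact hx (Finset.mem_coe.2 ((hFB j x).2 (Finset.mem_coe.1 hh)))
      · intro hh; exact hy (Finset.mem_coe.2 ((hFB j y).2 (Finset.mem_coe.1 hh)))
    have hspoke : ∀ j i, (Sum.inr (j, port i) : Fin k ⊕ (J × β)) ∉ F →
        (Sum.inl i : Fin k ⊕ (J × β)) ∉ F →
        Av (hGraph W port) (F : Set (Fin k ⊕ (J × β))) (Sum.inr (j, port i)) (Sum.inl i) := by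
      intro j i h1 h2
      exact Av.single (G := hGraph W port) rfl h1 h2
    have hmap2 : ∀ (j j' : J), j ≠ j' → ∀ (A A' : Finset β) (T : Finset (Fin k)), A ⊆ FB j →
        A' ⊆ FB j' → T ⊆ FS → A.card + A'.card + T.card ≤ F.card := by
      intro j j' hjj A A' T hA hA' hT
      have hd1 : Disjoint (A.image (fun b : β => (Sum.inr (j, b) : Fin k ⊕ (J × β))))
          (A'.image (fun b : β => (Sum.inr (j', b) : Fin k ⊕ (J × β)))) := by
        rw [Finset.disjoint_left]
        intro x hx hx'
        rw [Finset.mem_image] at hx hx'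
        obtain ⟨b, _, rfl⟩ := hx
        obtain ⟨b', _, h⟩ := hx'
        exact hjj ((Prod.mk.inj (Sum.inr_injective h)).1).symm
      have hd2 : Disjoint (A.image (fun b : β => (Sum.inr (j, b) : Fin k ⊕ (J × β))) ∪
          A'.image (fun b : β => (Sum.inr (j', b) : Fin k ⊕ (J × β))))
          (T.image (Sum.inl : Fin k → Fin k ⊕ (J × β))) := by
        rw [Finset.disjoint_left]
        intro x hx hx'
        rw [Finset.mem_union, Finset.mem_image, Finset.mem_image] at hx
        rw [Finset.mem_image] at hx'
        obtain ⟨i, _, rfl⟩ := hx'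
        rcases hx with ⟨b, _, h⟩ | ⟨b, _, h⟩
        · exact Sum.inr_ne_inl h
        · exact Sum.inr_ne_inl h
      have hsub : (A.image (fun b : β => (Sum.inr (j, b) : Fin k ⊕ (J × β))) ∪
          A'.image (fun b : β => (Sum.inr (j', b) : Fin k ⊕ (J × β)))) ∪
          (T.image (Sum.inl : Fin k → Fin k ⊕ (J × β))) ⊆ F := by
        intro x hx
        rw [Finset.mem_union, Finset.mem_union, Finset.mem_image, Finset.mem_image,
          Finset.mem_image] at hx
        rcases hx with (⟨b, hb, rfl⟩ | ⟨b, hb, rfl⟩) | ⟨i, hi, rfl⟩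
        · exact (hFB j b).1 (hA hb)
        · exact (hFB j' b).1 (hA' hb)
        · exact (hFS i).1 (hT hi)
      have := Finset.card_le_card hsub
      rw [Finset.card_union_of_disjoint hd2, Finset.card_union_of_disjoint hd1,
        Finset.card_image_of_injective _ (hinjr j), Finset.card_image_of_injective _ (hinjr j'),
        Finset.card_image_of_injective _ Sum.inl_injective] at this
      exact this
    by_cases hcase : ∃ j0, k ≤ (FB j0).card + 1
    · -- Case 1: everything is in one blob
      obtain ⟨j0, hj0⟩ := hcase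
      have hj0F : (FB j0).card ≤ F.card := hFBle j0
      have hother : ∀ j, j ≠ j0 → FB j = ∅ := by
        intro j hj
        have := hmap2 j0 j hj.symm (FB j0) (FB j) ∅ subset_rfl subset_rfl (Finset.empty_subset _)
        rw [Finset.card_empty] at this
        exact Finset.card_eq_zero.1 (by omega)
      have hS0 : FS = ∅ := by
        obtain ⟨j1, hj1⟩ : ∃ j1 : J, j1 ≠ j0 := by
          have : Nontrivial J := Fintype.one_lt_card_iff_nontrivial.1 (by omega)
          exact exists_ne j0
        have := hmap2 j0 j1 hj1.symm (FB j0) ∅ FS subset_rfl (Finset.empty_subset _) subset_rfl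
        rw [Finset.card_empty] at this
        exact Finset.card_eq_zero.1 (by omega)
      have hSnot : ∀ i, (Sum.inl i : Fin k ⊕ (J × β)) ∉ F := by
        intro i hi
        have := (hFS i).2 hi
        rw [hS0] at this
        exact absurd this (Finset.notMem_empty _)
      obtain ⟨j1, hj1⟩ : ∃ j1 : J, j1 ≠ j0 := by
        have : Nontrivial J := Fintype.one_lt_card_iff_nontrivial.1 (by omega)
        exact exists_ne j0
      have hj1not : ∀ b, (Sum.inr (j1, b) : Fin k ⊕ (J × β)) ∉ F := by
        intro b hb
        have := (hFB j1 b).2 hb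
        rw [hother j1 hj1] at this
        exact absurd this (Finset.notMem_empty _)
      -- all hub vertices are connected
      have hSS : ∀ i i', Av (hGraph W port) (F : Set (Fin k ⊕ (J × β))) (Sum.inl i) (Sum.inl i') := by
        intro i i'
        by_cases hk1 : k = 1
        · have : i = i' := by
            apply Fin.ext; omega
          rw [this]; exact Av.refl _ _ _
        · have e1 : Av B (FB j1 : Set β) (port i) (port i') := by
            rw [hother j1 hj1]
            exact C2 ∅ (by rw [Finset.card_empty]; omega) _ _ (Finset.notMem_empty _)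
              (Finset.notMem_empty _)
          exact ((hspoke j1 i (hj1not _) (hSnot _)).symm.trans (hlift j1 _ _ e1)).trans
            (hspoke j1 i' (hj1not _) (hSnot _))
      have htoS : ∀ x : Fin k ⊕ (J × β), x ∉ F →
          ∃ i, Av (hGraph W port) (F : Set (Fin k ⊕ (J × β))) x (Sum.inl i) := by
        rintro (i | ⟨j, b⟩) hx
        · exact ⟨i, Av.refl _ _ _⟩
        · have hb : b ∉ FB j := fun h => hx ((hFB j b).1 h)
          obtain ⟨i, hi, hav⟩ := C1 (FB j) (lt_of_le_of_lt (hFBle j) hF) b hb
          exact ⟨i, (hlift j _ _ hav).trans (hspoke j i (fun h => hi ((hFB j _).2 h)) (hSnot i))⟩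
      intro a b ha hb
      obtain ⟨i, hi⟩ := htoS a ha
      obtain ⟨i', hi'⟩ := htoS b hb
      exact (hi.trans (hSS i i')).trans hi'.symm
    · -- Case 2
      push Not at hcase
      have hblob : ∀ j b b', (Sum.inr (j, b) : Fin k ⊕ (J × β)) ∉ F →
          (Sum.inr (j, b') : Fin k ⊕ (J × β)) ∉ F →
          Av (hGraph W port) (F : Set (Fin k ⊕ (J × β))) (Sum.inr (j, b)) (Sum.inr (j, b')) := by
        intro j b b' hb hb'
        exact hlift j b b' (C2 (FB j) (by have := hcase j; omega) b b'
          (fun h => hb ((hFB j _).1 h)) (fun h => hb' ((hFB j _).1 h)))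
      have hinter : ∀ j j' b b', (Sum.inr (j, b) : Fin k ⊕ (J × β)) ∉ F →
          (Sum.inr (j', b') : Fin k ⊕ (J × β)) ∉ F →
          Av (hGraph W port) (F : Set (Fin k ⊕ (J × β))) (Sum.inr (j, b)) (Sum.inr (j', b')) := by
        intro j j' b b' hb hb'
        by_cases hjj : j = j'
        · subst hjj
          exact hblob j b b' hb hb'
        · -- a common free hub vertex
          obtain ⟨i, hi1, hi2, hi3⟩ : ∃ i, i ∉ FS ∧ port i ∉ FB j ∧ port i ∉ FB j' := by
            by_contra hcon
            push Not at hcon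
            have hcov : (Finset.univ : Finset (Fin k)) ⊆
                (FS ∪ Finset.univ.filter (fun i => port i ∈ FB j)) ∪
                  Finset.univ.filter (fun i => port i ∈ FB j') := by
              intro i _
              simp only [Finset.mem_union, Finset.mem_filter, Finset.mem_univ, true_and]
              by_cases h1 : i ∈ FS
              · exact Or.inl (Or.inl h1)
              · by_cases h2 : port i ∈ FB j
                · exact Or.inl (Or.inr h2)
                · exact Or.inr (hcon i h1 h2)
            have h1 := Finset.card_le_card hcov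
            rw [Finset.card_univ, Fintype.card_fin] at h1
            have h2 := Finset.card_union_le (FS ∪ Finset.univ.filter (fun i => port i ∈ FB j))
              (Finset.univ.filter (fun i => port i ∈ FB j'))
            have h3 := Finset.card_union_le FS (Finset.univ.filter (fun i => port i ∈ FB j))
            have h4 : ∀ j, (Finset.univ.filter (fun i => port i ∈ FB j)).card ≤ (FB j).card := by
              intro j
              refine Finset.card_le_card_of_injOn port ?_ (fun a _ b _ hab => hport hab)
              intro i hi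
              simpa using hi
            have h5 := hmap2 j j' hjj (FB j) (FB j') FS subset_rfl subset_rfl subset_rfl
            have h6 := h4 j
            have h7 := h4 j'
            omega
          have hiF : (Sum.inl i : Fin k ⊕ (J × β)) ∉ F := fun h => hi1 ((hFS i).2 h)
          have hpj : (Sum.inr (j, port i) : Fin k ⊕ (J × β)) ∉ F := fun h => hi2 ((hFB j _).2 h)
          have hpj' : (Sum.inr (j', port i) : Fin k ⊕ (J × β)) ∉ F := fun h => hi3 ((hFB j' _).2 h)
          exact (((hblob j b (port i) hb hpj).trans (hspoke j i hpj hiF)).trans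
            (hspoke j' i hpj' hiF).symm).trans (hblob j' (port i) b' hpj' hb')
      -- hub vertices reach a blob
      have hhub : ∀ i, (Sum.inl i : Fin k ⊕ (J × β)) ∉ F → ∃ (j : J) (b : β),
          (Sum.inr (j, b) : Fin k ⊕ (J × β)) ∉ F ∧
          Av (hGraph W port) (F : Set (Fin k ⊕ (J × β))) (Sum.inl i) (Sum.inr (j, b)) := by
        intro i hi
        by_cases hlive : ∃ j, (Sum.inr (j, port i) : Fin k ⊕ (J × β)) ∉ F
        · obtain ⟨j, hj⟩ := hlive
          exact ⟨j, port i, hj, (hspoke j i hj hi).symm⟩
        · push Not at hlive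
          by_cases hnb : ∃ i', (cycleGraph k).Adj i i' ∧ (Sum.inl i' : Fin k ⊕ (J × β)) ∉ F ∧
              ∃ j, (Sum.inr (j, port i') : Fin k ⊕ (J × β)) ∉ F
          · obtain ⟨i', hii', hi', j, hj⟩ := hnb
            refine ⟨j, port i', hj, ?_⟩
            exact (Av.single (G := hGraph W port) (a := Sum.inl i) (b := Sum.inl i') hii' hi
              hi').trans (hspoke j i' hj hi').symm
          · exfalso
            push Not at hnb
            obtain ⟨j0⟩ : Nonempty J := Fintype.card_pos_iff.1 (by omega)
            -- a map from `F` onto a superset of the neighbourhood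
            let ψ : Fin k ⊕ (J × β) → Fin k ⊕ (J × β) := fun x =>
              match x with
              | Sum.inl i' => Sum.inl i'
              | Sum.inr (j, b) => if b = port i then Sum.inr (j, b) else
                  if h : ∃ i', port i' = b then Sum.inl h.choose else Sum.inr (j, b)
            have hsub : (hGraph W port).neighborSet (Sum.inl i) ⊆
                ((F.image ψ : Finset (Fin k ⊕ (J × β))) : Set (Fin k ⊕ (J × β))) := by
              rintro (i' | ⟨j, b⟩) hx
              · have hadj : (cycleGraph k).Adj i i' := hx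
                by_cases hi' : (Sum.inl i' : Fin k ⊕ (J × β)) ∈ F
                · exact Finset.mem_coe.2 (Finset.mem_image.2 ⟨_, hi', rfl⟩)
                · have hdead := hnb i' hadj hi' j0
                  refine Finset.mem_coe.2 (Finset.mem_image.2 ⟨_, hdead, ?_⟩)
                  have hne : port i' ≠ port i := fun h => hadj.ne (hport h).symm
                  have hex : ∃ i'', port i'' = port i' := ⟨i', rfl⟩
                  have hch : hex.choose = i' := hport hex.choose_spec
                  simp only [ψ, hne, if_false, dif_pos hex]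
                  rw [hch]
              · have hb : b = port i := hx
                subst hb
                refine Finset.mem_coe.2 (Finset.mem_image.2 ⟨_, hlive j, ?_⟩)
                simp only [ψ, if_true]
            have h1 := Set.ncard_le_ncard hsub (Finset.finite_toSet _)
            rw [hreg, Set.ncard_coe_finset] at h1
            have h2 := Finset.card_image_le (s := F) (f := ψ)
            omega
      have htoB : ∀ x : Fin k ⊕ (J × β), x ∉ F → ∃ (j : J) (b : β),
          (Sum.inr (j, b) : Fin k ⊕ (J × β)) ∉ F ∧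
          Av (hGraph W port) (F : Set (Fin k ⊕ (J × β))) x (Sum.inr (j, b)) := by
        rintro (i | ⟨j, b⟩) hx
        · exact hhub i hx
        · exact ⟨j, b, hx, Av.refl _ _ _⟩
      intro x y hx hy
      obtain ⟨j, b, hb, h1⟩ := htoB x hx
      obtain ⟨j', b', hb', h2⟩ := htoB y hy
      exact (h1.trans (hinter j j' b b' hb hb')).trans h2.symm

end Hub

/-- a walk along a sequence of consecutively adjacent vertices -/
theorem exists_walk_seq {V : Type} {G : SimpleGraph V} (f : ℕ → V) (n : ℕ)
    (h : ∀ i < n, G.Adj (f i) (f (i + 1))) :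
    ∃ p : G.Walk (f 0) (f n), p.length = n ∧ p.support = (List.range (n + 1)).map f := by
  induction n with
  | zero => exact ⟨Walk.nil, rfl, rfl⟩
  | succ n ih =>
    obtain ⟨p, hp, hs⟩ := ih (fun i hi => h i (by omega))
    refine ⟨p.concat (h n (by omega)), by rw [Walk.length_concat, hp], ?_⟩
    have e : List.range (n + 1 + 1) = List.range (n + 1) ++ [n + 1] := List.range_succ
    rw [Walk.support_concat, hs, e, List.map_append]
    rfl

theorem exists_path_seq {V : Type} {G : SimpleGraph V} (f : ℕ → V) (n : ℕ)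
    (h : ∀ i < n, G.Adj (f i) (f (i + 1)))
    (hinj : ∀ i j, i ≤ n → j ≤ n → f i = f j → i = j) :
    ∃ p : G.Walk (f 0) (f n), p.IsPath ∧ p.length = n ∧ (∀ i ≤ n, f i ∈ p.support) := by
  obtain ⟨p, hp, hs⟩ := exists_walk_seq f n h
  refine ⟨p, ?_, hp, ?_⟩
  · refine Walk.IsPath.mk' ?_
    rw [hs]
    refine List.Nodup.map_on ?_ List.nodup_range
    intro x hx y hy hxy
    rw [List.mem_range] at hx hy
    exact hinj x y (by omega) (by omega) hxy
  · intro i hi
    rw [hs]
    exact List.mem_map.2 ⟨i, List.mem_range.2 (by omega), rfl⟩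

/-- the base examples -/
theorem NCS.of_hub {k d : ℕ} {J β : Type} [Fintype J] [Fintype β] (W : SimpleGraph (J × β))
    (port : Fin k → β) (B : SimpleGraph β)
    (hport : Function.Injective port) (hk : 1 ≤ k) (hJ : 2 ≤ Nat.card J) (hkd : k ≤ d) (s : ℕ)
    (hs : ∀ i : Fin k, ((cycleGraph k).neighborSet i).ncard = s) (hsJ : s + Nat.card J = d)
    (hBW : ∀ j b b', B.Adj b b' → W.Adj (j, b) (j, b'))
    (C1 : ∀ F : Finset β, F.card < k → ∀ b, b ∉ F → ∃ i, port i ∉ F ∧ Av B (F : Set β) b (port i))
    (C2 : ∀ F : Finset β, F.card + 1 < k → ∀ b b', b ∉ F → b' ∉ F → Av B (F : Set β) b b')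
    (hW : ∀ x : J × β, (∃ i, port i = x.2) → (W.neighborSet x).ncard + 1 = d)
    (hW' : ∀ x : J × β, (¬ ∃ i, port i = x.2) → (W.neighborSet x).ncard = d)
    (comp : J → Bool) (hcomp : ∀ x y : J × β, W.Adj x y → comp x.1 = comp y.1)
    (j0 j1 : J) (hj : comp j0 ≠ comp j1) :
    (∀ v, ((hGraph W port).neighborSet v).ncard = d) ∧ KConnected k (hGraph W port) ∧
    (∀ b b', ¬ Av (hGraph W port) (Set.range Sum.inl) (Sum.inr (j0, b)) (Sum.inr (j1, b'))) ∧
    NCS d k (k + 1) := by
  classical
  have hdeg : ∀ v, ((hGraph W port).neighborSet v).ncard = d := by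
    rintro (i | x)
    · rw [hGraph_degree_inl i (hs i), hsJ]
    · exact hGraph_degree_inr hport x (hW x) (hW' x)
  have hconn : KConnected k (hGraph W port) :=
    hGraph_kConnected B hport hk hJ hkd (fun i => hdeg _) hBW C1 C2
  have hsep : ∀ b b', ¬ Av (hGraph W port) (Set.range Sum.inl) (Sum.inr (j0, b))
      (Sum.inr (j1, b')) := by
    intro b b' hav
    have key : ∀ x : Fin k ⊕ (J × β),
        Av (hGraph W port) (Set.range Sum.inl) (Sum.inr (j0, b)) x →
        ∃ y : J × β, x = Sum.inr y ∧ comp y.1 = comp j0 := by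
      intro x hx
      induction hx with
      | refl => exact ⟨_, rfl, rfl⟩
      | @tail b' z _ h2 ih =>
        obtain ⟨y, rfl, hy⟩ := ih
        rcases z with z | z
        · exact absurd ⟨z, rfl⟩ h2.2.2
        · exact ⟨z, rfl, by rw [← hy]; exact (hcomp y z h2.1).symm⟩
    obtain ⟨y, hy, hy2⟩ := key _ hav
    have := Sum.inr_injective hy
    apply hj
    rw [← hy2, ← this]
  refine ⟨hdeg, hconn, hsep, ?_⟩
  -- the path
  have h0 : 0 < k := hk
  let f : ℕ → Fin k ⊕ (J × β) := fun n =>
    if n = 0 then Sum.inr (j0, port ⟨0, h0⟩) else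
      if h : n - 1 < k then Sum.inl ⟨n - 1, h⟩ else Sum.inr (j1, port ⟨k - 1, by omega⟩)
  have hf0 : f 0 = Sum.inr (j0, port ⟨0, h0⟩) := by simp [f]
  have hfi : ∀ i (hi : i < k), f (i + 1) = Sum.inl ⟨i, hi⟩ := by
    intro i hi
    simp [f, hi]
  have hfl : f (k + 1) = Sum.inr (j1, port ⟨k - 1, by omega⟩) := by
    simp [f]
  have hjj : j0 ≠ j1 := by rintro rfl; exact hj rfl
  obtain ⟨p, hp, hpl, hps⟩ := exists_path_seq (G := hGraph W port) f (k + 1) (by
    intro i hi
    rcases Nat.eq_zero_or_pos i with h | h
    · subst h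
      rw [hf0, hfi 0 h0]
      exact rfl
    · obtain ⟨i', rfl⟩ : ∃ i', i = i' + 1 := ⟨i - 1, by omega⟩
      rw [hfi i' (by omega)]
      rcases Nat.lt_or_ge (i' + 1) k with h' | h'
      · rw [hfi (i' + 1) h']
        show (cycleGraph k).Adj _ _
        apply pathGraph_le_cycleGraph
        rw [pathGraph_adj]
        left; rfl
      · have hik : i' + 1 = k := by omega
        subst hik
        rw [hfl]
        exact rfl) (by
    intro i j hi hj hij
    have hcases : ∀ n, n ≤ k + 1 → n = 0 ∨ (∃ m, m < k ∧ n = m + 1) ∨ n = k + 1 := by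
      intro n hn
      rcases Nat.eq_zero_or_pos n with h | h
      · exact Or.inl h
      · rcases Nat.lt_or_ge n (k + 1) with h' | h'
        · exact Or.inr (Or.inl ⟨n - 1, by omega, by omega⟩)
        · exact Or.inr (Or.inr (by omega))
    rcases hcases i hi with rfl | ⟨m, hm, rfl⟩ | rfl <;>
    rcases hcases j hj with rfl | ⟨m', hm', rfl⟩ | rfl
    · rfl
    · rw [hf0, hfi m' hm'] at hij
      exact absurd hij Sum.inr_ne_inl
    · rw [hf0, hfl] at hij
      exact absurd (Prod.mk.inj (Sum.inr_injective hij)).1 hjj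
    · rw [hf0, hfi m hm] at hij
      exact absurd hij.symm Sum.inr_ne_inl
    · rw [hfi m hm, hfi m' hm'] at hij
      have := congrArg Fin.val (Sum.inl_injective hij)
      simp at this
      omega
    · rw [hfi m hm, hfl] at hij
      exact absurd hij.symm Sum.inr_ne_inl
    · rw [hf0, hfl] at hij
      exact absurd (Prod.mk.inj (Sum.inr_injective hij)).1.symm hjj
    · rw [hfi m' hm', hfl] at hij
      exact absurd hij Sum.inr_ne_inl
    · rfl)
  refine ⟨_, inferInstance, hGraph W port, hdeg, hconn, Set.range Sum.inl, f 0, f (k + 1), p, hp,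
    hpl, ?_, ?_, ?_, ?_⟩
  · rw [hf0]; rintro ⟨i, hi⟩; exact Sum.inl_ne_inr hi
  · rw [hfl]; rintro ⟨i, hi⟩; exact Sum.inl_ne_inr hi
  · rintro _ ⟨i, rfl⟩
    have := hps (i.1 + 1) (by omega)
    rw [hfi i.1 i.2] at this
    exact this
  · rw [hf0, hfl]
    exact hsep _ _

end Pool.Agent.H.MP_520f61_co
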