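import Pool.Agent.H.MP_520f61_co.Hub

set_option autoImplicit false

namespace Pool.Agent.H.MP_520f61_co

open SimpleGraph

/-- graph on `Fin n` given by neighbour bit masks -/
def tGraph (n : ℕ) (nb : ℕ → ℕ) (hs : ∀ x y : Fin n, (nb x.1).testBit y.1 = (nb y.1).testBit x.1)
    (hl : ∀ x : Fin n, (nb x.1).testBit x.1 = false) : SimpleGraph (Fin n) where
  Adj x y := (nb x.1).testBit y.1 = true
  symm := ⟨fun x y h => by rw [hs y x]; exact h⟩
  loopless := ⟨fun x h => by rw [hl x] at h; exact Bool.false_ne_true h⟩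

/-- one round of breadth first search on bit masks -/
def bstep (n : ℕ) (nb : ℕ → ℕ) (allowed X : ℕ) : ℕ :=
  ((List.range n).foldl (fun acc y => if X.testBit y then acc ||| nb y else acc) X) &&& allowed

/-- iterated breadth first search -/
def biter (n : ℕ) (nb : ℕ → ℕ) (allowed : ℕ) : ℕ → ℕ → ℕ
  | 0, X => X
  | t + 1, X => biter n nb allowed t (bstep n nb allowed X)

/-- mask of all vertices except `a`, `b` -/
def amask (n a b : ℕ) : ℕ :=
  (List.range n).foldl (fun acc y => if y = a ∨ y = b then acc else acc ||| (1 <<< y)) 0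

theorem foldl_testBit (nb : ℕ → ℕ) (X : ℕ) (l : List ℕ) (acc x : ℕ)
    (h : (l.foldl (fun acc y => if X.testBit y then acc ||| nb y else acc) acc).testBit x = true) :
    acc.testBit x = true ∨ ∃ y ∈ l, X.testBit y = true ∧ (nb y).testBit x = true := by
  induction l generalizing acc with
  | nil => left; exact h
  | cons a l ih =>
    rw [List.foldl_cons] at h
    rcases ih _ h with h1 | ⟨y, hy, h1⟩
    · split at h1
      · rename_i hXa
        rw [Nat.testBit_or, Bool.or_eq_true] at h1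
        rcases h1 with h1 | h1
        · exact Or.inl h1
        · exact Or.inr ⟨a, List.mem_cons_self, hXa, h1⟩
      · exact Or.inl h1
    · exact Or.inr ⟨y, List.mem_cons_of_mem _ hy, h1⟩

theorem biter_av {n : ℕ} {nb : ℕ → ℕ} {hs hl} (F : Set (Fin n)) (root : Fin n) (allowed : ℕ)
    (hal : ∀ x : Fin n, allowed.testBit x.1 = true → x ∉ F)
    (t : ℕ) : ∀ (X : ℕ), (∀ x : Fin n, X.testBit x.1 = true →
      x ∉ F ∧ Av (tGraph n nb hs hl) F root x) →
    ∀ x : Fin n, (biter n nb allowed t X).testBit x.1 = true →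
      Av (tGraph n nb hs hl) F root x := by
  induction t with
  | zero => intro X hX x hx; exact (hX x hx).2
  | succ t ih =>
    intro X hX x hx
    refine ih (bstep n nb allowed X) ?_ x hx
    intro y hy
    unfold bstep at hy
    rw [Nat.testBit_and, Bool.and_eq_true] at hy
    obtain ⟨hy1, hy2⟩ := hy
    have hyF := hal y hy2
    refine ⟨hyF, ?_⟩
    rcases foldl_testBit nb X _ _ _ hy1 with h | ⟨z, hz, hz1, hz2⟩
    · exact (hX y h).2
    · rw [List.mem_range] at hz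
      have := hX ⟨z, hz⟩ hz1
      exact this.2.trans (Av.single (G := tGraph n nb hs hl) hz2 this.1 hyF)

/-- the root used when `a`, `b` are deleted -/
def rootv (a b : ℕ) : ℕ := if 0 ≠ a ∧ 0 ≠ b then 0 else if 1 ≠ a ∧ 1 ≠ b then 1 else 2

theorem tGraph_kConnected {n : ℕ} {nb : ℕ → ℕ} {hs hl} (hn : 4 ≤ n) (t : ℕ)
    (hmask : ∀ a b x : Fin n, (amask n a.1 b.1).testBit x.1 = true → x ≠ a ∧ x ≠ b)
    (hcheck : ∀ a b x : Fin n, x ≠ a → x ≠ b →
      (biter n nb (amask n a.1 b.1) t (1 <<< rootv a.1 b.1)).testBit x.1 = true)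
    (hcheck0 : ∀ x : Fin n, (biter n nb (2 ^ n - 1) t 1).testBit x.1 = true) :
    KConnected 3 (tGraph n nb hs hl) := by
  classical
  refine KConnected.of_av (by rw [Fintype.card_fin]; omega) ?_
  intro F hF
  have h0n : 0 < n := by omega
  have main : ∀ a b : Fin n, F = {a, b} → ∀ x y : Fin n, x ∉ F → y ∉ F →
      Av (tGraph n nb hs hl) (F : Set (Fin n)) x y := by
    intro a b hFab x y hx hy
    have hroot : rootv a.1 b.1 < n ∧ rootv a.1 b.1 ≠ a.1 ∧ rootv a.1 b.1 ≠ b.1 := by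
      unfold rootv
      split
      · omega
      · split <;> omega
    let r : Fin n := ⟨rootv a.1 b.1, hroot.1⟩
    have hrF : r ∉ F := by
      rw [hFab]
      simp only [Finset.mem_insert, Finset.mem_singleton, not_or]
      exact ⟨fun h => hroot.2.1 (congrArg Fin.val h), fun h => hroot.2.2 (congrArg Fin.val h)⟩
    have key : ∀ x : Fin n, x ∉ F → Av (tGraph n nb hs hl) (F : Set (Fin n)) r x := by
      intro x hx
      rw [hFab, Finset.mem_insert, Finset.mem_singleton, not_or] at hx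
      refine biter_av (F : Set (Fin n)) r (amask n a.1 b.1) ?_ t (1 <<< rootv a.1 b.1) ?_ x
        (hcheck a b x hx.1 hx.2)
      · intro y hy
        rw [hFab]
        have := hmask a b y hy
        simp [this.1, this.2]
      · intro y hy
        have hyr : y = r := by
          rw [Nat.one_shiftLeft, Nat.testBit_two_pow] at hy
          simp only [decide_eq_true_eq] at hy
          exact Fin.ext hy.symm
        rw [hyr]
        exact ⟨hrF, Av.refl _ _ _⟩
    exact (key x hx).symm.trans (key y hy)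
  rcases Nat.lt_or_ge F.card 1 with h | h
  · have hF0 : F = ∅ := Finset.card_eq_zero.1 (by omega)
    intro x y _ _
    have key : ∀ x : Fin n, Av (tGraph n nb hs hl) (F : Set (Fin n)) ⟨0, h0n⟩ x := by
      intro x
      refine biter_av (F : Set (Fin n)) ⟨0, h0n⟩ (2 ^ n - 1) ?_ t 1 ?_ x (hcheck0 x)
      · intro y _
        rw [hF0]; simp
      · intro y hy
        have hyr : y = ⟨0, h0n⟩ := by
          have h1 : (1 : ℕ) = 2 ^ 0 := rfl
          rw [h1, Nat.testBit_two_pow] at hy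
          simp only [decide_eq_true_eq] at hy
          exact Fin.ext hy.symm
        rw [hyr, hF0]
        exact ⟨by simp, Av.refl _ _ _⟩
    exact (key x).symm.trans (key y)
  · rcases Nat.lt_or_ge F.card 2 with h' | h'
    · obtain ⟨a, ha⟩ := Finset.card_eq_one.1 (show F.card = 1 by omega)
      exact main a a (by rw [ha]; simp)
    · obtain ⟨a, b, _, hab⟩ := Finset.card_eq_two.1 (show F.card = 2 by omega)
      exact main a b hab

theorem tGraph_degree {n : ℕ} {nb : ℕ → ℕ} {hs hl} {d : ℕ}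
    (h : ∀ x : Fin n, (Finset.univ.filter fun y : Fin n => (nb x.1).testBit y.1 = true).card = d)
    (x : Fin n) : ((tGraph n nb hs hl).neighborSet x).ncard = d := by
  have : (tGraph n nb hs hl).neighborSet x =
      ((Finset.univ.filter fun y : Fin n => (nb x.1).testBit y.1 = true : Finset (Fin n)) :
        Set (Fin n)) := by
    ext y
    simp only [Finset.coe_filter, Finset.mem_univ, true_and, Set.mem_ofPred_eq]
    rfl
  rw [this, Set.ncard_coe_finset, h]

/-- the prism -/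
def nbP (x : ℕ) : ℕ :=
  match x with
  | 0 => 2 ^ 1 + 2 ^ 2 + 2 ^ 4
  | 1 => 2 ^ 0 + 2 ^ 2 + 2 ^ 5
  | 2 => 2 ^ 0 + 2 ^ 1 + 2 ^ 3
  | 3 => 2 ^ 2 + 2 ^ 4 + 2 ^ 5
  | 4 => 2 ^ 0 + 2 ^ 3 + 2 ^ 5
  | 5 => 2 ^ 1 + 2 ^ 3 + 2 ^ 4
  | _ => 0

theorem NCS.prism : NCS 3 3 5 := by
  have hs : ∀ x y : Fin 6, (nbP x.1).testBit y.1 = (nbP y.1).testBit x.1 := by decide
  have hl : ∀ x : Fin 6, (nbP x.1).testBit x.1 = false := by decide
  let G := tGraph 6 nbP hs hl
  let f : ℕ → Fin 6 := fun i => Fin.ofNat 6 i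
  obtain ⟨p, hp, hpl, hps⟩ := exists_path_seq (G := G) f 5 (by
    intro i hi
    show (nbP (f i).1).testBit (f (i + 1)).1 = true
    interval_cases i <;> decide) (by
    intro i j hi hj hij
    have : i % 6 = j % 6 := congrArg Fin.val hij
    omega)
  refine ⟨Fin 6, inferInstance, G, tGraph_degree (by decide),
    tGraph_kConnected (by norm_num) 6 (by decide +kernel) (by decide +kernel) (by decide +kernel),
    {x : Fin 6 | x.1 ≠ 0 ∧ x.1 ≠ 5}, f 0, f 5, p, hp, hpl, ?_, ?_, ?_, ?_⟩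
  · intro h; exact h.1 rfl
  · intro h; exact h.2 rfl
  · intro x _
    have := hps x.1 (by omega)
    have hx : f x.1 = x := by
      apply Fin.ext
      show x.1 % 6 = x.1
      omega
    rwa [hx] at this
  · intro hav
    have key : ∀ x : Fin 6, Av G {x : Fin 6 | x.1 ≠ 0 ∧ x.1 ≠ 5} (f 0) x → x = 0 := by
      intro x hx
      induction hx with
      | refl => rfl
      | @tail b c _ h2 ih =>
        subst ih
        have h3 : (nbP 0).testBit c.1 = true := h2.1
        have h4 : ¬ (c.1 ≠ 0 ∧ c.1 ≠ 5) := h2.2.2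
        have hall : ∀ c : Fin 6, (nbP 0).testBit c.1 = true → ¬ (c.1 ≠ 0 ∧ c.1 ≠ 5) → c = 0 := by
          decide
        exact hall c h3 h4
    have := key _ hav
    exact absurd this (by decide)

/-- the graph for `(4,3)`: a path `0,1,2` and two cliques `{3,4,5,6}`, `{7,8,9,10}` -/
def nbQ (x : ℕ) : ℕ :=
  match x with
  | 0 => 2 ^ 1 + 2 ^ 3 + 2 ^ 4 + 2 ^ 7
  | 1 => 2 ^ 0 + 2 ^ 2 + 2 ^ 5 + 2 ^ 8
  | 2 => 2 ^ 1 + 2 ^ 6 + 2 ^ 9 + 2 ^ 10
  | 3 => 2 ^ 0 + 2 ^ 4 + 2 ^ 5 + 2 ^ 6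
  | 4 => 2 ^ 0 + 2 ^ 3 + 2 ^ 5 + 2 ^ 6
  | 5 => 2 ^ 1 + 2 ^ 3 + 2 ^ 4 + 2 ^ 6
  | 6 => 2 ^ 2 + 2 ^ 3 + 2 ^ 4 + 2 ^ 5
  | 7 => 2 ^ 0 + 2 ^ 8 + 2 ^ 9 + 2 ^ 10
  | 8 => 2 ^ 1 + 2 ^ 7 + 2 ^ 9 + 2 ^ 10
  | 9 => 2 ^ 2 + 2 ^ 7 + 2 ^ 8 + 2 ^ 10
  | 10 => 2 ^ 2 + 2 ^ 7 + 2 ^ 8 + 2 ^ 9
  | _ => 0

def fQ : ℕ → Fin 11
  | 0 => 3
  | 1 => 0
  | 2 => 1
  | 3 => 2
  | _ => 9

theorem NCS.four_three : NCS 4 3 4 := by
  have hs : ∀ x y : Fin 11, (nbQ x.1).testBit y.1 = (nbQ y.1).testBit x.1 := by decide +kernel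
  have hl : ∀ x : Fin 11, (nbQ x.1).testBit x.1 = false := by decide +kernel
  let G := tGraph 11 nbQ hs hl
  obtain ⟨p, hp, hpl, hps⟩ := exists_path_seq (G := G) fQ 4 (by
    intro i hi
    show (nbQ (fQ i).1).testBit (fQ (i + 1)).1 = true
    interval_cases i <;> decide) (by
    intro i j hi hj hij
    revert hij
    interval_cases i <;> interval_cases j <;> decide)
  refine ⟨Fin 11, inferInstance, G, tGraph_degree (by decide +kernel),
    tGraph_kConnected (by norm_num) 6 (by decide +kernel) (by decide +kernel) (by decide +kernel),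
    {x : Fin 11 | x.1 < 3}, fQ 0, fQ 4, p, hp, hpl, ?_, ?_, ?_, ?_⟩
  · show ¬ ((3 : Fin 11).1 < 3)
    decide
  · show ¬ ((9 : Fin 11).1 < 3)
    decide
  · intro x hx
    have hx' : x.1 < 3 := hx
    have := hps (x.1 + 1) (by omega)
    have hall : ∀ x : Fin 11, x.1 < 3 → fQ (x.1 + 1) = x := by decide
    rwa [hall x hx'] at this
  · intro hav
    have key : ∀ x : Fin 11, Av G {x : Fin 11 | x.1 < 3} (fQ 0) x → 3 ≤ x.1 ∧ x.1 < 7 := by
      intro x hx
      induction hx with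
      | refl => exact ⟨le_rfl, by decide⟩
      | @tail b c _ h2 ih =>
        have h3 : (nbQ b.1).testBit c.1 = true := h2.1
        have h4 : ¬ (c.1 < 3) := h2.2.2
        have hall : ∀ b c : Fin 11, 3 ≤ b.1 ∧ b.1 < 7 → (nbQ b.1).testBit c.1 = true →
            ¬ (c.1 < 3) → 3 ≤ c.1 ∧ c.1 < 7 := by decide +kernel
        exact hall b c ih h3 h4
    have h5 := (key _ hav).2
    have : ¬ ((9 : Fin 11).1 < 7) := by decide
    exact this h5

end Pool.Agent.H.MP_520f61_co
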