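import Pool.Agent.H.MP_520f61_co.Pos
import Pool.Agent.H.MP_520f61_co.Blob
import Pool.Agent.H.MP_520f61_co.Small

set_option autoImplicit false

namespace Pool.Agent.H.MP_520f61_co

open SimpleGraph

theorem S_anti {d k k' ℓ : ℕ} (hk : k' ≤ k) (h : ℓ ∉ S d k) : ℓ ∉ S d k' := by
  intro h'
  apply h
  intro V _ G hreg hconn
  exact h' V G hreg (hconn.mono hk)

/-- `0 ∉ S 0 0` -/
theorem zero_notMem_S_zero : 0 ∉ S 0 0 := by
  intro h
  obtain ⟨w, c, hc, _⟩ := h Unit (⊥ : SimpleGraph Unit) (by
    intro v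
    rw [Set.ncard_eq_zero (Set.toFinite _)]
    ext x; simp) (Or.inl rfl) () () Walk.nil Walk.IsPath.nil rfl
  cases c with
  | nil => exact hc.ne_nil rfl
  | cons h' _ => exact h'

theorem top_bool_degree (v : Bool) : ((⊤ : SimpleGraph Bool).neighborSet v).ncard = 1 := by
  have : (⊤ : SimpleGraph Bool).neighborSet v = {!v} := by
    ext x
    simp only [mem_neighborSet, top_adj, Set.mem_singleton_iff]
    revert v x
    decide
  rw [this, Set.ncard_singleton]

theorem top_bool_conn : KConnected 1 (⊤ : SimpleGraph Bool) := by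
  refine KConnected.of_av (by simp) ?_
  intro F _ a b ha hb
  by_cases hab : a = b
  · rw [hab]; exact Av.refl _ _ _
  · exact Av.single (by simpa using hab) ha hb

theorem top_bool_no_cycle {w : Bool} (c : (⊤ : SimpleGraph Bool).Walk w w) : ¬ c.IsCycle := by
  intro hc
  have h1 := hc.three_le_length
  have h2 := hc.support_nodup.length_le_card
  rw [List.length_tail, Walk.length_support, Fintype.card_bool] at h2
  omega

theorem notMem_S_one {ℓ : ℕ} (hℓ : ℓ ≤ 1) : ℓ ∉ S 1 1 := by
  intro h
  have hadj : (⊤ : SimpleGraph Bool).Adj true false := by simp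
  rcases Nat.lt_or_ge ℓ 1 with h0 | h0
  · obtain ⟨w, c, hc, _⟩ := h Bool ⊤ top_bool_degree top_bool_conn true true Walk.nil
      Walk.IsPath.nil (by simp; omega)
    exact top_bool_no_cycle c hc
  · obtain ⟨w, c, hc, _⟩ := h Bool ⊤ top_bool_degree top_bool_conn true false
      (Walk.cons hadj Walk.nil) (by simp [Walk.cons_isPath_iff]) (by simp; omega)
    exact top_bool_no_cycle c hc

/-- degrees odd, at least three: nothing closes -/
theorem notMem_S_odd {d ℓ : ℕ} (hd : Odd d) (h3 : 3 ≤ d) : ℓ ∉ S d 1 := by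
  classical
  obtain ⟨hreg, hconn, hsep, hncs⟩ := NCS.odd_odd (d := d) (k := 1) (s := 0) (m := d)
    odd_one hd (by omega) (by omega) (fun i => cycleGraph_ncard_one i) (by omega) (by omega)
  rcases Nat.lt_or_ge ℓ 2 with hl | hl
  · -- the centre is on no cycle
    set G := hGraph (copies (Fin d) (bGraph d 1)) (fun i : Fin 1 =>
      (Sum.inl (Fin.castLE (show 1 ≤ d by omega) i) : Fin d ⊕ Fin (d - 1))) with hG
    have hnb : ∀ x, G.Adj (Sum.inl 0) x → ∃ j, x =
        Sum.inr (j, Sum.inl (Fin.castLE (show 1 ≤ d by omega) 0)) := by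
      rintro (x | ⟨j, b⟩) hx
      · have hx' : (cycleGraph 1).Adj 0 x := hx
        exact absurd hx' cycleGraph_one_adj
      · have hx' : b = Sum.inl (Fin.castLE (show 1 ≤ d by omega) 0) := hx
        exact ⟨j, by rw [hx']⟩
    have hcentre : ∀ (w : Fin 1 ⊕ (Fin d × (Fin d ⊕ Fin (d - 1)))) (C : G.Walk w w), C.IsCycle →
        Sum.inl 0 ∉ C.support := by
      intro w C hC hmem
      have hC' := hC.rotate hmem
      set C' := C.rotate _ hmem with hC'def
      have hnil := hC'.not_nil
      have a1 : C'.toSubgraph.Adj (Sum.inl 0) C'.snd := C'.toSubgraph_adj_snd hnil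
      have a2 : C'.toSubgraph.Adj C'.penultimate (Sum.inl 0) := C'.toSubgraph_adj_penultimate hnil
      have hne := hC'.snd_ne_penultimate
      obtain ⟨j, hj⟩ := hnb _ a1.adj_sub
      obtain ⟨j', hj'⟩ := hnb _ a2.adj_sub.symm
      have hjj : j ≠ j' := by
        rintro rfl
        exact hne (hj.trans hj'.symm)
      have hnot : ¬ ClosesToCycle (Walk.cons a1.adj_sub.symm (Walk.cons a2.adj_sub.symm Walk.nil)) := by
        refine not_closes_of_sep _ ?_ (Set.range Sum.inl) ?_ ?_ ?_ ?_
        · rw [Walk.cons_isPath_iff, Walk.cons_isPath_iff]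
          refine ⟨⟨Walk.IsPath.nil, ?_⟩, ?_⟩
          · simp only [Walk.support_nil, List.mem_singleton]
            exact a2.adj_sub.ne'
          · simp only [Walk.support_cons, Walk.support_nil, List.mem_cons, List.not_mem_nil,
              or_false, not_or]
            exact ⟨a1.adj_sub.ne', hne⟩
        · rw [hj]; rintro ⟨i, hi⟩; exact Sum.inl_ne_inr hi
        · rw [hj']; rintro ⟨i, hi⟩; exact Sum.inl_ne_inr hi
        · rintro _ ⟨i, rfl⟩
          have : i = 0 := Subsingleton.elim _ _
          rw [this]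
          simp
        · have := hsep j j' hjj
            (Sum.inl (Fin.castLE (show 1 ≤ d by omega) 0)) (Sum.inl (Fin.castLE (show 1 ≤ d by omega) 0))
          rw [← hj, ← hj'] at this
          exact this
      apply hnot
      refine ⟨_, C', hC', ?_⟩
      refine sup_le (subgraphOfAdj_le_of_adj _ a1.symm) (sup_le (subgraphOfAdj_le_of_adj _ a2.symm) ?_)
      rw [Walk.toSubgraph, singletonSubgraph_le_iff]
      exact C'.toSubgraph.edge_vert a2
    intro hmem
    have hadj : G.Adj (Sum.inl 0) (Sum.inr ((⟨0, by omega⟩ : Fin d),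
        Sum.inl (Fin.castLE (show 1 ≤ d by omega) 0))) := rfl
    rcases Nat.lt_or_ge ℓ 1 with h0 | h0
    · obtain ⟨w, c, hc, hle⟩ := hmem _ G hreg hconn (Sum.inl 0) (Sum.inl 0) Walk.nil
        Walk.IsPath.nil (by simp; omega)
      apply hcentre w c hc
      rw [← Walk.mem_verts_toSubgraph]
      exact hle.1 (Walk.start_mem_verts_toSubgraph _)
    · obtain ⟨w, c, hc, hle⟩ := hmem _ G hreg hconn _ _ (Walk.cons hadj Walk.nil)
        (by simp [Walk.cons_isPath_iff]) (by simp; omega)
      apply hcentre w c hc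
      rw [← Walk.mem_verts_toSubgraph]
      exact hle.1 (Walk.start_mem_verts_toSubgraph _)
  · exact (hncs.add (by omega) (by omega) (by omega) hl).notMem

/-- degrees even, at least four -/
theorem notMem_S_even {d ℓ : ℕ} (hd : Even d) (h4 : 4 ≤ d) (hl : 2 ≤ ℓ) : ℓ ∉ S d 1 := by
  have hd2 : 0 + 2 * (d / 2) = d := by
    obtain ⟨r, hr⟩ := hd
    omega
  have h := NCS.odd_even (d := d) (k := 1) (s := 0) (m := d / 2) odd_one hd (by omega)
    (fun i => cycleGraph_ncard_one i) (by omega) hd2
  exact (h.add (by omega) (by omega) (by omega) hl).notMem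

theorem NCS.base {d k : ℕ} (hk : 2 ≤ k) (hkd : k ≤ d) (hd : 3 ≤ d) (hne : ¬ (d = 3 ∧ k = 3)) :
    NCS d k (k + 1) := by
  rcases Nat.even_or_odd k with hke | hko
  · rcases Nat.lt_or_ge k 3 with h | h
    · have hk2 : k = 2 := by omega
      subst hk2
      exact NCS.even (s := 1) (m := d - 1) (by norm_num) hke hkd (by omega)
        (fun i => cycleGraph_ncard_two i) (by omega) (by omega)
    · obtain ⟨n, rfl⟩ : ∃ n, k = n + 3 := ⟨k - 3, by omega⟩
      have : 4 ≤ n + 3 := by
        obtain ⟨r, hr⟩ := hke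
        omega
      exact NCS.even (s := 2) (m := d - 2) (by omega) hke hkd (by omega)
        (fun i => cycleGraph_ncard_three i) (by omega) (by omega)
  · have hk3 : 3 ≤ k := by
      obtain ⟨r, hr⟩ := hko
      omega
    obtain ⟨n, rfl⟩ : ∃ n, k = n + 3 := ⟨k - 3, by omega⟩
    rcases Nat.even_or_odd d with hde | hdo
    · rcases Nat.lt_or_ge d 6 with h | h
      · have hd4 : d = 4 := by
          obtain ⟨r, hr⟩ := hde
          omega
        subst hd4
        have hn : n = 0 := by
          obtain ⟨r, hr⟩ := hko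
          omega
        subst hn
        exact NCS.four_three
      · have hd2 : 2 + 2 * ((d - 2) / 2) = d := by
          obtain ⟨r, hr⟩ := hde
          omega
        exact NCS.odd_even (s := 2) (m := (d - 2) / 2) hko hde hkd
          (fun i => cycleGraph_ncard_three i) (by omega) hd2
    · have hd5 : 5 ≤ d := by
        obtain ⟨r, hr⟩ := hdo
        by_contra hcon
        have : d = 3 := by omega
        exact hne ⟨this, by omega⟩
      exact (NCS.odd_odd (s := 2) (m := d - 2) hko hdo hkd (by omega)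
        (fun i => cycleGraph_ncard_three i) (by omega) (by omega)).2.2.2

theorem notMem_S_of_lt {d k ℓ : ℕ} (hk : 2 ≤ k) (hkd : k ≤ d) (hd : 3 ≤ d)
    (hne : ¬ (d = 3 ∧ k = 3)) (hl : k < ℓ) : ℓ ∉ S d k :=
  ((NCS.base hk hkd hd hne).add (by omega) hkd (by omega) hl).notMem

theorem notMem_S_three {ℓ : ℕ} (hl : 4 < ℓ) : ℓ ∉ S 3 3 :=
  (NCS.prism.add (by norm_num) le_rfl (by norm_num) hl).notMem

/-- the complete determination -/
theorem S_eq (d k : ℕ) (hkd : k ≤ d) :
    S d k =
      if d = 0 then {ℓ | 1 ≤ ℓ}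
      else if d = 1 then {ℓ | 2 ≤ ℓ}
      else if d = 2 then Set.univ
      else if k ≤ 1 then (if Even d then {0, 1} else ∅)
      else if d = 3 ∧ k = 3 then {ℓ | ℓ ≤ 4}
      else {ℓ | ℓ ≤ k} := by
  split_ifs with h0 h1 h2 hk1 hev h33
  · subst h0
    have hk0 : k = 0 := by omega
    subst hk0
    ext ℓ
    rw [Set.mem_ofPred_eq]
    refine ⟨fun h => ?_, fun h => mem_S_zero h⟩
    by_contra hcon
    have : ℓ = 0 := by omega
    subst this
    exact zero_notMem_S_zero h
  · subst h1
    ext ℓ
    rw [Set.mem_ofPred_eq]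
    refine ⟨fun h => ?_, fun h => mem_S_one h⟩
    by_contra hcon
    exact S_anti hkd (notMem_S_one (by omega)) h
  · subst h2
    ext ℓ
    simp only [Set.mem_univ, iff_true]
    exact mem_S_two k ℓ
  · ext ℓ
    simp only [Set.mem_insert_iff, Set.mem_singleton_iff]
    have h4 : 4 ≤ d := by
      obtain ⟨r, hr⟩ := hev
      omega
    constructor
    · intro h
      by_contra hcon
      exact S_anti hk1 (notMem_S_even hev h4 (by omega)) h
    · rintro (rfl | rfl)
      · exact zero_mem_S_even (by omega) hev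
      · exact one_mem_S_even hev
  · ext ℓ
    simp only [Set.mem_empty_iff_false, iff_false]
    rw [Nat.not_even_iff_odd] at hev
    exact S_anti hk1 (notMem_S_odd hev (by omega))
  · obtain ⟨rfl, rfl⟩ := h33
    ext ℓ
    rw [Set.mem_ofPred_eq]
    refine ⟨fun h => ?_, fun h => mem_S_three h⟩
    by_contra hcon
    exact notMem_S_three (by omega) h
  · ext ℓ
    rw [Set.mem_ofPred_eq]
    refine ⟨fun h => ?_, fun h => mem_S_of_le (by omega) hkd h⟩
    by_contra hcon
    exact notMem_S_of_lt (by omega) hkd (by omega) h33 (by omega) h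

end Pool.Agent.H.MP_520f61_co
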