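import Pool.Agent.H.MP_520f61_co.Conn

set_option autoImplicit false

namespace Pool.Agent.H.MP_520f61_co

open SimpleGraph

variable {V : Type}

/-- a path on at most two vertices can be prolonged at its start, if all degrees are at least 2 -/
theorem exists_extend [Finite V] {G : SimpleGraph V} {d : ℕ} (hd : 2 ≤ d)
    (hreg : ∀ v : V, (G.neighborSet v).ncard = d) {u v : V} (p : G.Walk u v) (hp : p.IsPath)
    (hl : p.length ≤ 1) : ∃ (w : V) (h : G.Adj w u), (Walk.cons h p).IsPath := by
  classical
  have hcard : ({x | x ∈ p.support ∧ x ≠ u} : Set V).ncard ≤ 1 := by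
    have h1 : ({x | x ∈ p.support ∧ x ≠ u} : Set V) ⊆ ((p.support.tail.toFinset : Finset V) : Set V) := by
      rintro x ⟨hx, hxu⟩
      rw [← Walk.cons_tail_support] at hx
      simp only [List.mem_cons] at hx
      simp only [List.coe_toFinset, Set.mem_ofPred_eq]
      tauto
    refine (Set.ncard_le_ncard h1 (Finset.finite_toSet _)).trans ?_
    rw [Set.ncard_coe_finset]
    refine (List.toFinset_card_le _).trans ?_
    rw [List.length_tail, Walk.length_support]
    omega
  have h2 : ¬ (G.neighborSet u ⊆ {x | x ∈ p.support ∧ x ≠ u}) := by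
    intro h
    have := Set.ncard_le_ncard h (Set.toFinite _)
    rw [hreg] at this
    omega
  rw [Set.not_subset] at h2
  obtain ⟨w, hw, hw2⟩ := h2
  have hw' : G.Adj u w := hw
  refine ⟨w, hw'.symm, ?_⟩
  rw [Walk.cons_isPath_iff]
  refine ⟨hp, fun h => hw2 ⟨h, hw'.ne'⟩⟩

theorem mem_S_of_succ {d k ℓ : ℕ} (hd : 2 ≤ d) (hℓ : ℓ ≤ 1) (h : ℓ + 1 ∈ S d k) : ℓ ∈ S d k := by
  intro V _ G hreg hk u v p hp hl
  obtain ⟨w, hw, hpath⟩ := exists_extend hd hreg p hp (by omega)
  exact (h V G hreg hk w v (Walk.cons hw p) hpath (by simp [hl])).of_cons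

/-- `k ≥ 2`: all lengths `2 ≤ ℓ ≤ k` -/
theorem mem_S_of_two_le {d k ℓ : ℕ} (h2 : 2 ≤ ℓ) (hℓ : ℓ ≤ k) : ℓ ∈ S d k := by
  classical
  intro V _ G hreg hk u v p hp hl
  set F : Finset V := (p.support.toFinset.erase u).erase v with hF
  have huv : u ≠ v := by
    rintro rfl
    have := Walk.length_eq_zero_iff.2 (Walk.isPath_iff_nil.1 hp)
    omega
  have hFc : F.card < k := by
    rw [hF, Finset.card_erase_of_mem, Finset.card_erase_of_mem, List.toFinset_card_of_nodup
      hp.support_nodup, Walk.length_support]
    · omega
    · simp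
    · simp [huv.symm]
  refine closes_of_av p hp (by omega) (F : Set V) (by simp [hF]) ?_
    (hk.av F hFc v u (by simp [hF]) (by simp [hF]))
  intro x hx hxu hxv
  simp [hF, hx, hxu, hxv]

theorem mem_S_of_le {d k ℓ : ℕ} (hk : 2 ≤ k) (hkd : k ≤ d) (hℓ : ℓ ≤ k) : ℓ ∈ S d k := by
  rcases Nat.lt_or_ge ℓ 2 with h | h
  · have h2 : 2 ∈ S d k := mem_S_of_two_le le_rfl hk
    have h1 : 1 ∈ S d k := mem_S_of_succ (by omega) le_rfl h2
    have h0 : 0 ∈ S d k := mem_S_of_succ (by omega) (by omega) h1
    interval_cases ℓ
    · exact h0
    · exact h1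
  · exact mem_S_of_two_le h hℓ

/-- the exceptional pair `(3,3)` -/
theorem four_mem_S_three : 4 ∈ S 3 3 := by
  classical
  intro V _ G hreg hk u v p hp hl
  match p, hp, hl with
  | .cons (v := a) h1 (.cons (v := b) h2 (.cons (v := c) h3 (.cons (v := e) h4 .nil))), hp, _ =>
    have hnd := hp.support_nodup
    simp only [Walk.support_cons, Walk.support_nil, List.nodup_cons, List.mem_cons,
      List.not_mem_nil, or_false, not_or, List.nodup_nil, and_true] at hnd
    obtain ⟨⟨hua, hub, huc, hue⟩, ⟨hab, hac, hae⟩, ⟨hbc, hbe⟩, hce, _⟩ := hnd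
    have hcard : ({a, c} : Finset V).card < 3 := lt_of_le_of_lt Finset.card_le_two (by norm_num)
    have hb : b ∉ ({a, c} : Finset V) := by simp [Ne.symm hab, hbc]
    have hu : u ∉ ({a, c} : Finset V) := by simp [hua, huc]
    have he : e ∉ ({a, c} : Finset V) := by simp [Ne.symm hae, Ne.symm hce]
    have e1 := hk.av {a, c} hcard u b hu hb
    have e2 := hk.av {a, c} hcard e b he hb
    obtain ⟨z, hz1, hz2, hz3⟩ := e1.exists_last hub
    obtain ⟨w, hw1, hw2, hw3⟩ := e2.exists_last (Ne.symm hbe)
    -- `z = w` is the third neighbour of `b`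
    have hzw : z = w := by
      by_contra hne
      have hsub : (({a, c, z, w} : Finset V) : Set V) ⊆ G.neighborSet b := by
        intro x hx
        simp only [Finset.coe_insert, Finset.coe_singleton, Set.mem_insert_iff,
          Set.mem_singleton_iff] at hx
        rcases hx with rfl | rfl | rfl | rfl
        · exact h2.symm
        · exact h3
        · exact hz2.symm
        · exact hw2.symm
      have hc := Set.ncard_le_ncard hsub (Set.toFinite _)
      rw [hreg, Set.ncard_coe_finset] at hc
      have hz3' : z ≠ a ∧ z ≠ c := by simpa using hz3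
      have hw3' : w ≠ a ∧ w ≠ c := by simpa using hw3
      have : ({a, c, z, w} : Finset V).card = 4 := by
        rw [Finset.card_insert_of_notMem, Finset.card_insert_of_notMem,
          Finset.card_insert_of_notMem, Finset.card_singleton]
        · simpa using hne
        · simp [Ne.symm hz3'.2, Ne.symm hw3'.2]
        · simp [hac, Ne.symm hz3'.1, Ne.symm hw3'.1]
      omega
    subst hzw
    have hfin : Av G (insert b (({a, c} : Finset V) : Set V)) e u := hw1.trans hz1.symm
    refine closes_of_av _ hp (by simp) _ ?_ ?_ hfin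
    · simp [Ne.symm hbe, Ne.symm hae, Ne.symm hce]
    · intro x hx hxu hxe
      simp only [Walk.support_cons, Walk.support_nil, List.mem_cons, List.not_mem_nil,
        or_false] at hx
      simp only [Finset.coe_insert, Finset.coe_singleton, Set.mem_insert_iff,
        Set.mem_singleton_iff]
      tauto

theorem mem_S_three {ℓ : ℕ} (hℓ : ℓ ≤ 4) : ℓ ∈ S 3 3 := by
  rcases Nat.lt_or_ge ℓ 4 with h | h
  · exact mem_S_of_le (by norm_num) le_rfl (by omega)
  · have : ℓ = 4 := by omega
    rw [this]; exact four_mem_S_three

/-- in a `2`-regular graph every path closes -/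
theorem mem_S_two (k ℓ : ℕ) : ℓ ∈ S 2 k := by
  classical
  intro V _ G hreg _ u v p hp hl
  clear hl
  -- induction on the number of vertices outside the path
  induction hn : Fintype.card V - p.length using Nat.strong_induction_on generalizing u p with
  | _ n ih =>
  by_cases hex : ∃ (w : V) (h : G.Adj w u), (Walk.cons h p).IsPath
  · obtain ⟨w, h, hpath⟩ := hex
    refine ClosesToCycle.of_cons (h := h) ?_
    refine ih (Fintype.card V - (Walk.cons h p).length) ?_ _ (Walk.cons h p) hpath rfl
    have := hpath.length_lt
    rw [Walk.length_cons] at this ⊢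
    omega
  · -- all neighbours of `u` lie on the path
    have hall : ∀ w, G.Adj u w → w ∈ p.support := by
      intro w hw
      by_contra hcon
      exact hex ⟨w, hw.symm, (Walk.cons_isPath_iff _ _).2 ⟨hp, hcon⟩⟩
    have hlen : ¬ p.length ≤ 1 := by
      intro h
      exact hex (exists_extend le_rfl hreg p hp h)
    have hnil : ¬ p.Nil := by
      rw [← Walk.length_eq_zero_iff]; omega
    -- the second neighbour of `u`
    obtain ⟨y, hy, hys⟩ : ∃ y, G.Adj u y ∧ y ≠ p.snd := by
      have : ¬ (G.neighborSet u ⊆ {p.snd}) := by
        intro h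
        have := Set.ncard_le_ncard h (Set.toFinite _)
        rw [hreg, Set.ncard_singleton] at this
        omega
      rw [Set.not_subset] at this
      obtain ⟨y, hy, hy2⟩ := this
      exact ⟨y, hy, hy2⟩
    have hyv : y = v := by
      by_contra hyv
      obtain ⟨i, hi, hi2⟩ := (Walk.mem_support_iff_exists_getVert).1 (hall y hy)
      have hi0 : i ≠ 0 := by
        rintro rfl
        apply hy.ne
        rw [← hi]; simp
      have hil : i < p.length := by
        rcases lt_or_eq_of_le hi2 with h | h
        · exact h
        · exfalso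
          apply hyv
          rw [← hi, h]; simp
      have hcard1 := hp.ncard_neighborSet_toSubgraph_internal_eq_two hi0 hil
      rw [hi] at hcard1
      have heq : p.toSubgraph.neighborSet y = G.neighborSet y :=
        Set.eq_of_subset_of_ncard_le (fun z hz => hz.adj_sub) (by rw [hcard1, hreg])
          (Set.toFinite _)
      have huy : p.toSubgraph.Adj y u := by
        have : u ∈ G.neighborSet y := hy.symm
        rw [← heq] at this
        exact this
      exact hys (hp.snd_of_toSubgraph_adj huy.symm).symm
    subst hyv
    refine ⟨u, p.append (Walk.cons hy.symm Walk.nil), ?_, ?_⟩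
    · refine hp.isCycle_append ?_ ?_ (Or.inl (by omega))
      · simp [Walk.cons_isPath_iff, hy.ne']
      · intro x hx hx'
        have h1 : x ≠ u := by
          rintro rfl
          have := hp.support_nodup
          rw [← Walk.cons_tail_support] at this
          exact (List.nodup_cons.1 this).1 hx
        simp at hx'
        exact h1 hx'
    · rw [Walk.toSubgraph_append]
      exact le_sup_left

/-- even degrees: no bridges -/
theorem one_mem_S_even {d k : ℕ} (hd : Even d) : 1 ∈ S d k := by
  classical
  intro V _ G hreg _ u v p hp hl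
  match p, hp, hl with
  | .cons (v := v) h .nil, hp, _ =>
    -- handshake
    have hreach : (G.deleteEdges {s(u, v)}).Reachable u v := by
      by_contra hcon
      set G' := G.deleteEdges {s(u, v)} with hG'
      let H : SimpleGraph V :=
        { Adj := fun a b => G'.Adj a b ∧ G'.Reachable u a
          symm := ⟨fun a b hab => ⟨hab.1.symm, hab.2.trans hab.1.reachable⟩⟩
          loopless := ⟨fun a ha => ha.1.ne rfl⟩ }
      have hHu : H.neighborSet u = G.neighborSet u \ {v} := by
        ext x
        simp only [mem_neighborSet, Set.mem_sdiff, Set.mem_singleton_iff]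
        constructor
        · rintro ⟨hx, _⟩
          rw [hG', deleteEdges_adj] at hx
          refine ⟨hx.1, ?_⟩
          rintro rfl
          exact hx.2 rfl
        · rintro ⟨hx, hxv⟩
          refine ⟨?_, Reachable.refl _⟩
          rw [hG', deleteEdges_adj]
          refine ⟨hx, ?_⟩
          simp only [Set.mem_singleton_iff, Sym2.eq_iff, not_or, not_and]
          refine ⟨fun _ => hxv, fun h1 h2 => ?_⟩
          exact h.ne h1
      have hdeg : ∀ a, a ≠ u → Even (H.degree a) := by
        intro a ha
        have hcard : H.degree a = (H.neighborSet a).ncard := by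
          rw [← card_neighborSet_eq_degree, Set.ncard_eq_toFinset_card', Set.toFinset_card]
        rw [hcard]
        by_cases hr : G'.Reachable u a
        · have hav : a ≠ v := by rintro rfl; exact hcon hr
          have : H.neighborSet a = G.neighborSet a := by
            ext x
            simp only [mem_neighborSet]
            constructor
            · rintro ⟨hx, _⟩
              rw [hG', deleteEdges_adj] at hx
              exact hx.1
            · intro hx
              refine ⟨?_, hr⟩
              rw [hG', deleteEdges_adj]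
              refine ⟨hx, ?_⟩
              simp only [Set.mem_singleton_iff, Sym2.eq_iff, not_or, not_and]
              exact ⟨fun h => absurd h ha, fun h => absurd h hav⟩
          rw [this, hreg]
          exact hd
        · have : H.neighborSet a = ∅ := by
            ext x
            simp only [mem_neighborSet, Set.mem_empty_iff_false, iff_false]
            rintro ⟨_, hx⟩
            exact hr hx
          rw [this]; simp
      have hodd : Odd (H.degree u) := by
        have hcard : H.degree u = (H.neighborSet u).ncard := by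
          rw [← card_neighborSet_eq_degree, Set.ncard_eq_toFinset_card', Set.toFinset_card]
        rw [hcard, hHu, Set.ncard_sdiff_singleton_of_mem (show v ∈ G.neighborSet u from h), hreg]
        have hpos : 0 < d := by
          rw [← hreg u, Set.ncard_pos (Set.toFinite _)]
          exact ⟨v, h⟩
        rcases hd with ⟨r, hr⟩
        exact ⟨r - 1, by omega⟩
      obtain ⟨w, hw, hwodd⟩ := H.exists_ne_odd_degree_of_exists_odd_degree u hodd
      have := hdeg w hw
      rw [← Nat.not_odd_iff_even] at this
      exact this hwodd
    obtain ⟨w, c, hc, he⟩ := adj_and_reachable_delete_edges_iff_exists_cycle.1 ⟨h, hreach⟩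
    refine ⟨w, c, hc, ?_⟩
    rw [Walk.toSubgraph_cons_nil_eq_subgraphOfAdj]
    exact subgraphOfAdj_le_of_adj _ (by rw [← Subgraph.mem_edgeSet, Walk.mem_edges_toSubgraph]; exact he)

theorem zero_mem_S_even {d k : ℕ} (h2 : 2 ≤ d) (hd : Even d) : 0 ∈ S d k :=
  mem_S_of_succ h2 (by norm_num) (one_mem_S_even hd)

/-- degree `0` -/
theorem mem_S_zero {k ℓ : ℕ} (hℓ : 1 ≤ ℓ) : ℓ ∈ S 0 k := by
  intro V _ G hreg _ u v p _ hl
  exfalso
  match p, hl with
  | .nil, hl => simp at hl; omega
  | .cons (v := x) h q, _ =>
    have : (G.neighborSet u) = ∅ := (Set.ncard_eq_zero (Set.toFinite _)).1 (hreg u)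
    have hx : x ∈ G.neighborSet u := h
    rw [this] at hx
    exact hx

/-- degree `1` -/
theorem mem_S_one {k ℓ : ℕ} (hℓ : 2 ≤ ℓ) : ℓ ∈ S 1 k := by
  intro V _ G hreg _ u v p hp hl
  exfalso
  match p, hp, hl with
  | .nil, _, hl => simp at hl; omega
  | .cons h .nil, _, hl => simp at hl; omega
  | .cons (v := x) h (.cons (v := y) h' q), hp, _ =>
    obtain ⟨z, hz⟩ := Set.ncard_eq_one.1 (hreg x)
    have h1 : u ∈ G.neighborSet x := h.symm
    have h2 : y ∈ G.neighborSet x := h'
    rw [hz] at h1 h2
    have : u = y := by
      rw [Set.mem_singleton_iff] at h1 h2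
      rw [h1, h2]
    subst this
    rw [Walk.cons_isPath_iff] at hp
    apply hp.2
    simp

end Pool.Agent.H.MP_520f61_co
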